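import Mathlib

set_option autoImplicit false

namespace Pool.Agent.Helper307.UF

open Finset

/-- the additive character -/
noncomputable def ee (x : ℝ) : ℂ := Complex.exp (Complex.I * ((2 * Real.pi * x : ℝ) : ℂ))

lemma ee_add (x y : ℝ) : ee (x + y) = ee x * ee y := by
  unfold ee
  rw [← Complex.exp_add]
  congr 1
  push_cast
  ring

lemma ee_zero : ee 0 = 1 := by
  simp [ee]

lemma norm_ee (x : ℝ) : ‖ee x‖ = 1 := by
  unfold ee
  exact Complex.norm_exp_I_mul_ofReal _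

lemma ee_int (n : ℤ) : ee (n : ℝ) = 1 := by
  unfold ee
  rw [Complex.exp_eq_one_iff]
  refine ⟨n, ?_⟩
  push_cast
  ring

lemma ee_nat (n : ℕ) : ee (n : ℝ) = 1 := by
  have := ee_int (n : ℤ)
  simpa using this

lemma ee_nat_mul (n : ℕ) (x : ℝ) : ee (n * x) = ee x ^ n := by
  unfold ee
  rw [← Complex.exp_nat_mul]
  congr 1
  push_cast
  ring

lemma ee_neg (x : ℝ) : ee (-x) = (starRingEnd ℂ) (ee x) := by
  unfold ee
  rw [← Complex.exp_conj]
  congr 1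
  rw [map_mul, Complex.conj_I, Complex.conj_ofReal]
  push_cast
  ring

lemma ee_sub_round (x : ℝ) : ee (x - round x) = ee x := by
  have h : ee x = ee (x - round x) * ee (round x : ℝ) := by
    rw [← ee_add]; congr 1; ring
  rw [h, ee_int, mul_one]

lemma ee_nat_mul_round (n : ℕ) (x : ℝ) : ee (n * (x - round x)) = ee (n * x) := by
  rw [ee_nat_mul, ee_nat_mul, ee_sub_round]

lemma norm_ee_sub_one (x : ℝ) : ‖ee x - 1‖ = 2 * |Real.sin (Real.pi * x)| := by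
  unfold ee
  rw [Complex.norm_exp_I_mul_ofReal_sub_one]
  rw [Real.norm_eq_abs, abs_mul, abs_of_pos (by norm_num : (0:ℝ) < 2)]
  congr 3
  ring

lemma norm_one_add_ee (x : ℝ) : ‖1 + ee x‖ = 2 * |Real.cos (Real.pi * x)| := by
  have h1 : ee x = - ee (x + 1 / 2) := by
    rw [ee_add]
    have : ee (1 / 2) = -1 := by
      unfold ee
      rw [show Complex.I * ((2 * Real.pi * (1 / 2) : ℝ) : ℂ) = Real.pi * Complex.I by
        push_cast; ring]
      exact Complex.exp_pi_mul_I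
    rw [this]; ring
  rw [h1, show (1 : ℂ) + - ee (x + 1 / 2) = -(ee (x + 1 / 2) - 1) by ring, norm_neg,
    norm_ee_sub_one]
  rw [show Real.pi * (x + 1 / 2) = Real.pi * x + Real.pi / 2 by ring, Real.sin_add_pi_div_two]

lemma four_mul_le_norm {x : ℝ} (hx : |x| ≤ 1 / 2) : 4 * |x| ≤ ‖ee x - 1‖ := by
  rw [norm_ee_sub_one]
  have h := Real.mul_abs_le_abs_sin (x := Real.pi * x) (by
    rw [abs_mul, abs_of_pos Real.pi_pos]
    nlinarith [Real.pi_pos])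
  rw [abs_mul, abs_of_pos Real.pi_pos] at h
  have h2 : 2 / Real.pi * (Real.pi * |x|) = 2 * |x| := by
    field_simp
  rw [h2] at h
  linarith

/-- geometric sum bound -/
lemma geom_bound {x : ℝ} (hx : |x| ≤ 1 / 2) (hx0 : x ≠ 0) (R : ℕ) :
    ‖∑ c ∈ range R, ee (c * x)‖ ≤ 1 / (2 * |x|) := by
  have hpos : 0 < |x| := abs_pos.2 hx0
  have h4 := four_mul_le_norm hx
  have hne : ee x ≠ 1 := by
    intro h
    rw [h] at h4
    simp only [sub_self, norm_zero] at h4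
    linarith
  have hsum : ∑ c ∈ range R, ee (c * x) = (ee x ^ R - 1) / (ee x - 1) := by
    rw [← geom_sum_eq hne]
    exact Finset.sum_congr rfl (fun c _ => ee_nat_mul c x)
  rw [hsum, norm_div]
  have h5 : ‖ee x ^ R - 1‖ ≤ 2 := by
    calc ‖ee x ^ R - 1‖ ≤ ‖ee x ^ R‖ + ‖(1 : ℂ)‖ := norm_sub_le _ _
      _ = 2 := by rw [norm_pow, norm_ee]; norm_num
  have h6 : 0 < ‖ee x - 1‖ := by linarith
  rw [div_le_div_iff₀ h6 (by positivity)]
  nlinarith

/-- pairing bound for an even number of terms -/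
lemma pair_bound (x : ℝ) (ρ : ℕ) :
    ‖∑ c ∈ range (ρ + ρ), ee (c * x)‖ ≤ 2 * ρ * |Real.cos (Real.pi * (ρ * x))| := by
  have h1 : ∑ c ∈ range (ρ + ρ), ee (c * x) = (1 + ee (ρ * x)) * ∑ c ∈ range ρ, ee (c * x) := by
    rw [Finset.sum_range_add, add_mul, one_mul, Finset.mul_sum]
    congr 1
    refine Finset.sum_congr rfl (fun c _ => ?_)
    rw [← ee_add]
    congr 1
    push_cast
    ring
  rw [h1, norm_mul, norm_one_add_ee]
  have h2 : ‖∑ c ∈ range ρ, ee (c * x)‖ ≤ ρ := by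
    calc ‖∑ c ∈ range ρ, ee (c * x)‖ ≤ ∑ c ∈ range ρ, ‖ee (c * x)‖ := norm_sum_le _ _
      _ = ρ := by simp [norm_ee]
  have h3 : 0 ≤ |Real.cos (Real.pi * (ρ * x))| := abs_nonneg _
  nlinarith

/-- low frequency bound -/
lemma low_bound {x : ℝ} {ρ : ℕ} (hx : 0 ≤ x) (hρ : ((ρ : ℝ) + ρ) * x ≤ 1) :
    ‖∑ c ∈ range (ρ + ρ), ee (c * x)‖ ≤
      ((ρ : ℝ) + ρ) * Real.exp (-((((ρ : ℝ) + ρ) * x) ^ 2 / 2)) := by
  have h1 := pair_bound x ρ
  have hρx : 0 ≤ (ρ : ℝ) * x := by positivity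
  have h2 : Real.cos (Real.pi * (ρ * x)) ≤ 1 - 2 / Real.pi ^ 2 * (Real.pi * (ρ * x)) ^ 2 := by
    apply Real.cos_le_one_sub_mul_cos_sq
    rw [abs_of_nonneg (by positivity)]
    nlinarith [Real.pi_pos]
  have h3 : 2 / Real.pi ^ 2 * (Real.pi * (ρ * x)) ^ 2 = 2 * (ρ * x) ^ 2 := by
    have := Real.pi_ne_zero
    field_simp
  rw [h3] at h2
  have h4 : 0 ≤ Real.cos (Real.pi * (ρ * x)) := by
    apply Real.cos_nonneg_of_mem_Icc
    constructor
    · have : 0 ≤ Real.pi * (ρ * x) := by positivity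
      linarith [Real.pi_pos]
    · nlinarith [Real.pi_pos]
  rw [abs_of_nonneg h4] at h1
  have h5 : 1 - 2 * (ρ * x) ^ 2 ≤ Real.exp (-((((ρ : ℝ) + ρ) * x) ^ 2 / 2)) := by
    have := Real.add_one_le_exp (-((((ρ : ℝ) + ρ) * x) ^ 2 / 2))
    nlinarith
  calc ‖∑ c ∈ range (ρ + ρ), ee (c * x)‖ ≤ 2 * ρ * Real.cos (Real.pi * (ρ * x)) := h1
    _ ≤ 2 * ρ * Real.exp (-((((ρ : ℝ) + ρ) * x) ^ 2 / 2)) := by
        apply mul_le_mul_of_nonneg_left (h2.trans h5) (by positivity)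
    _ = _ := by ring

/-- high frequency bound -/
lemma high_bound {x : ℝ} {ρ : ℕ} (hx : 1 ≤ 2 * ((ρ : ℝ) + ρ) * |x - round x|) :
    ‖∑ c ∈ range (ρ + ρ), ee (c * x)‖ ≤ 7 / 8 * ((ρ : ℝ) + ρ) := by
  set y := x - round x with hy
  have hsum : ∑ c ∈ range (ρ + ρ), ee (c * x) = ∑ c ∈ range (ρ + ρ), ee (c * y) :=
    Finset.sum_congr rfl (fun c _ => (ee_nat_mul_round c x).symm)
  have hyle : |y| ≤ 1 / 2 := abs_sub_round x
  have hyne : y ≠ 0 := by
    intro h; rw [h] at hx; simp at hx; linarith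
  have hypos : 0 < |y| := abs_pos.2 hyne
  rw [hsum]
  by_cases hc : ((ρ : ℝ) + ρ) * |y| ≤ 1
  · have h1 := pair_bound y ρ
    have h2 : Real.cos (Real.pi * (ρ * y)) ≤ 1 - 2 / Real.pi ^ 2 * (Real.pi * (ρ * y)) ^ 2 := by
      apply Real.cos_le_one_sub_mul_cos_sq
      rw [abs_mul, abs_mul, abs_of_pos Real.pi_pos, abs_of_nonneg (Nat.cast_nonneg ρ : (0:ℝ) ≤ ρ)]
      nlinarith [Real.pi_pos]
    have h3 : 2 / Real.pi ^ 2 * (Real.pi * (ρ * y)) ^ 2 = 2 * (ρ * y) ^ 2 := by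
      have := Real.pi_ne_zero
      field_simp
    rw [h3] at h2
    have h4 : 0 ≤ Real.cos (Real.pi * (ρ * y)) := by
      rw [← Real.cos_abs]
      apply Real.cos_nonneg_of_mem_Icc
      rw [abs_mul, abs_mul, abs_of_pos Real.pi_pos, abs_of_nonneg (Nat.cast_nonneg ρ : (0:ℝ) ≤ ρ)]
      constructor
      · have : 0 ≤ Real.pi * (ρ * |y|) := by positivity
        linarith [Real.pi_pos]
      · nlinarith [Real.pi_pos]
    rw [abs_of_nonneg h4] at h1
    have h6 : (1 : ℝ) / 16 ≤ (ρ * y) ^ 2 := by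
      have : (ρ * y) ^ 2 = (ρ * |y|) ^ 2 := by rw [mul_pow, mul_pow, sq_abs]
      rw [this]
      have h7 : (1 : ℝ) / 4 ≤ ρ * |y| := by nlinarith
      nlinarith
    have h8 : Real.cos (Real.pi * (ρ * y)) ≤ 7 / 8 := by linarith
    have h9 : (0 : ℝ) ≤ ρ := Nat.cast_nonneg ρ
    nlinarith
  · push Not at hc
    have h1 := geom_bound hyle hyne (ρ + ρ)
    have h2 : 1 / (2 * |y|) ≤ ((ρ : ℝ) + ρ) / 2 := by
      rw [div_le_div_iff₀ (by positivity) (by norm_num)]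
      nlinarith
    have h9 : (0 : ℝ) ≤ ρ := Nat.cast_nonneg ρ
    linarith

end Pool.Agent.Helper307.UF
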