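import Mathlib
import Pool.Agent.Helper307.UF.Trig

set_option autoImplicit false

namespace Pool.Agent.Helper307.UF

open Finset

lemma row_sum (T k : ℕ) (ε : ℕ → ℝ) (hε0 : ∀ h, 0 ≤ ε h) :
    ∑ k' ∈ (range T).erase k, ε (Int.natAbs ((k : ℤ) - k')) ≤ 2 * ∑ h ∈ Ico 1 T, ε h ∨ T ≤ k := by
  by_cases hk : k < T
  · left
    have hmap : ∀ k' ∈ (range T).erase k, Int.natAbs ((k : ℤ) - k') ∈ Ico 1 T := by
      intro k' hk'
      rw [mem_erase, mem_range] at hk'
      rw [mem_Ico]
      omega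
    rw [← Finset.sum_fiberwise_of_maps_to hmap]
    rw [Finset.mul_sum]
    refine Finset.sum_le_sum (fun h _ => ?_)
    have h1 : ∑ k' ∈ ((range T).erase k).filter (fun k' : ℕ => Int.natAbs ((k : ℤ) - (k' : ℤ)) = h),
        ε (Int.natAbs ((k : ℤ) - k')) =
        ∑ k' ∈ ((range T).erase k).filter (fun k' : ℕ => Int.natAbs ((k : ℤ) - (k' : ℤ)) = h), ε h := by
      refine Finset.sum_congr rfl (fun k' hk' => ?_)
      rw [(mem_filter.1 hk').2]
    rw [h1, Finset.sum_const, nsmul_eq_mul]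
    have h2 : (((range T).erase k).filter (fun k' : ℕ => Int.natAbs ((k : ℤ) - (k' : ℤ)) = h)).card ≤ 2 := by
      have hsub : ((range T).erase k).filter (fun k' : ℕ => Int.natAbs ((k : ℤ) - (k' : ℤ)) = h) ⊆
          {k - h, k + h} := by
        intro k' hk'
        rw [mem_filter] at hk'
        rw [mem_insert, mem_singleton]
        have := hk'.2
        omega
      exact (card_le_card hsub).trans Finset.card_le_two
    have h3 : ((((range T).erase k).filter (fun k' : ℕ => Int.natAbs ((k : ℤ) - (k' : ℤ)) = h)).card : ℝ) ≤ 2 := by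
      exact_mod_cast h2
    exact mul_le_mul_of_nonneg_right h3 (hε0 h)
  · right; omega

theorem kernel {ι : Type*} (s : Finset ι) (w x : ι → ℝ) (hw : ∀ j ∈ s, 0 ≤ w j)
    (hW : ∑ j ∈ s, w j = 1) (T : ℕ) (hT : 1 ≤ T) (ε : ℕ → ℝ) (hε0 : ∀ h, 0 ≤ ε h)
    (hε : ∀ h ∈ Ico 1 T, ‖∑ j ∈ s, (w j : ℂ) * ee ((h : ℝ) * x j)‖ ≤ ε h)
    (hsum : ∑ h ∈ Ico 1 T, ε h ≤ 1 / 4) (δ : ℝ) (hδ : 0 < δ) (hTδ : 1 ≤ T * δ ^ 2) :
    ∃ j ∈ s, |x j - round (x j)| < δ := by
  by_contra hcon
  push Not at hcon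
  set G : ℤ → ℂ := fun m => ∑ j ∈ s, (w j : ℂ) * ee ((m : ℝ) * x j) with hG
  have hGneg : ∀ m : ℤ, ‖G (-m)‖ = ‖G m‖ := by
    intro m
    have : G (-m) = (starRingEnd ℂ) (G m) := by
      rw [hG]
      simp only
      rw [map_sum]
      refine Finset.sum_congr rfl (fun j _ => ?_)
      rw [map_mul, Complex.conj_ofReal, ← ee_neg]
      congr 2
      push_cast; ring
    rw [this]
    exact Complex.norm_conj _
  have hGle : ∀ m : ℤ, m.natAbs ∈ Ico 1 T → ‖G m‖ ≤ ε m.natAbs := by
    intro m hm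
    have h1 := hε _ hm
    rcases Int.natAbs_eq m with h | h
    · have h2 : G m = ∑ j ∈ s, (w j : ℂ) * ee (((m.natAbs : ℕ) : ℝ) * x j) := by
        rw [hG]
        simp only
        refine Finset.sum_congr rfl (fun j _ => ?_)
        congr 3
        conv_lhs => rw [h]
        simp
      rw [h2]; exact h1
    · have h2 : G (-m) = ∑ j ∈ s, (w j : ℂ) * ee (((m.natAbs : ℕ) : ℝ) * x j) := by
        rw [hG]
        simp only
        refine Finset.sum_congr rfl (fun j _ => ?_)
        congr 3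
        conv_lhs => rw [h]
        simp
      rw [← hGneg m, h2]; exact h1
  have hG0 : G 0 = 1 := by
    rw [hG]
    simp only [Int.cast_zero, zero_mul, ee_zero, mul_one]
    rw [← Complex.ofReal_sum, hW]; simp
  -- the Fejer sum
  set F : ι → ℝ := fun j => ‖∑ k ∈ range T, ee ((k : ℝ) * x j)‖ ^ 2 with hF
  have hFc : ∀ j, (F j : ℂ) = ∑ k ∈ range T, ∑ k' ∈ range T, ee ((((k : ℤ) - k' : ℤ) : ℝ) * x j) := by
    intro j
    rw [hF]
    simp only
    rw [← Complex.normSq_eq_norm_sq, Complex.normSq_eq_conj_mul_self, map_sum, Finset.sum_mul,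
      Finset.sum_comm]
    refine Finset.sum_congr rfl (fun k' _ => ?_)
    rw [Finset.mul_sum]
    refine Finset.sum_congr rfl (fun k _ => ?_)
    rw [← ee_neg, ← ee_add]
    congr 1
    push_cast; ring
  have hTot : ((∑ j ∈ s, w j * F j : ℝ) : ℂ) = ∑ k ∈ range T, ∑ k' ∈ range T, G ((k : ℤ) - k') := by
    rw [Complex.ofReal_sum]
    have h1 : ∀ j ∈ s, ((w j * F j : ℝ) : ℂ) =
        ∑ k ∈ range T, ∑ k' ∈ range T, (w j : ℂ) * ee ((((k : ℤ) - k' : ℤ) : ℝ) * x j) := by
      intro j _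
      rw [Complex.ofReal_mul, hFc j, Finset.mul_sum]
      refine Finset.sum_congr rfl (fun k _ => ?_)
      rw [Finset.mul_sum]
    rw [Finset.sum_congr rfl h1, Finset.sum_comm]
    refine Finset.sum_congr rfl (fun k _ => ?_)
    rw [Finset.sum_comm]
  have hlow : ‖((∑ j ∈ s, w j * F j : ℝ) : ℂ) - T‖ ≤ T * (1 / 2) := by
    rw [hTot]
    have h1 : (T : ℂ) = ∑ k ∈ range T, (1 : ℂ) := by simp
    rw [h1, ← Finset.sum_sub_distrib]
    calc ‖∑ k ∈ range T, (∑ k' ∈ range T, G ((k : ℤ) - k') - 1)‖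
        ≤ ∑ k ∈ range T, ‖∑ k' ∈ range T, G ((k : ℤ) - k') - 1‖ := norm_sum_le _ _
      _ ≤ ∑ k ∈ range T, (1 / 2 : ℝ) := by
          refine Finset.sum_le_sum (fun k hk => ?_)
          rw [← Finset.add_sum_erase (range T) _ hk]
          rw [sub_self, hG0, add_sub_cancel_left]
          calc ‖∑ k' ∈ (range T).erase k, G ((k : ℤ) - k')‖
              ≤ ∑ k' ∈ (range T).erase k, ‖G ((k : ℤ) - k')‖ := norm_sum_le _ _
            _ ≤ ∑ k' ∈ (range T).erase k, ε (Int.natAbs ((k : ℤ) - k')) := by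
                refine Finset.sum_le_sum (fun k' hk' => hGle _ ?_)
                rw [mem_erase, mem_range] at hk'
                rw [mem_range] at hk
                rw [mem_Ico]
                omega
            _ ≤ 2 * ∑ h ∈ Ico 1 T, ε h := by
                rcases row_sum T k ε hε0 with h | h
                · exact h
                · rw [mem_range] at hk; omega
            _ ≤ 1 / 2 := by linarith
      _ = T * (1 / 2) := by simp
  have hlow2 : (T : ℝ) * (1 / 2) ≤ ∑ j ∈ s, w j * F j := by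
    have h1 : ((∑ j ∈ s, w j * F j : ℝ) : ℂ) - T = ((∑ j ∈ s, w j * F j - T : ℝ) : ℂ) := by
      push_cast; ring
    rw [h1, Complex.norm_real, Real.norm_eq_abs] at hlow
    have := (abs_le.1 hlow).1
    linarith
  have hup : ∑ j ∈ s, w j * F j ≤ T * (1 / 4) := by
    have h1 : ∀ j ∈ s, w j * F j ≤ w j * (T * (1 / 4)) := by
      intro j hj
      apply mul_le_mul_of_nonneg_left _ (hw j hj)
      have hδj := hcon j hj
      have hyle : |x j - round (x j)| ≤ 1 / 2 := abs_sub_round (x j)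
      have hyne : x j - round (x j) ≠ 0 := by
        intro h; rw [h, abs_zero] at hδj; linarith
      have h2 := geom_bound hyle hyne T
      have h3 : ∑ c ∈ range T, ee (c * (x j - round (x j))) = ∑ k ∈ range T, ee ((k : ℝ) * x j) :=
        Finset.sum_congr rfl (fun c _ => ee_nat_mul_round c (x j))
      rw [h3] at h2
      have h4 : 1 / (2 * |x j - round (x j)|) ≤ 1 / (2 * δ) := by
        apply one_div_le_one_div_of_le (by positivity)
        linarith
      have h5 : ‖∑ k ∈ range T, ee ((k : ℝ) * x j)‖ ≤ 1 / (2 * δ) := h2.trans h4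
      rw [hF]
      simp only
      calc ‖∑ k ∈ range T, ee ((k : ℝ) * x j)‖ ^ 2 ≤ (1 / (2 * δ)) ^ 2 :=
            pow_le_pow_left₀ (norm_nonneg _) h5 2
        _ ≤ T * (1 / 4) := by
            rw [div_pow, one_pow, div_le_iff₀ (by positivity)]
            nlinarith
    calc ∑ j ∈ s, w j * F j ≤ ∑ j ∈ s, w j * (T * (1 / 4)) := Finset.sum_le_sum h1
      _ = T * (1 / 4) := by rw [← Finset.sum_mul, hW, one_mul]
  have hTpos : (1 : ℝ) ≤ T := by exact_mod_cast hT
  linarith

/-- chain lemma -/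
lemma chain_bound (w : ℕ → ℝ) (n : ℕ) (ω : ℝ) (hw0 : ∀ i, 0 ≤ w i) (hwω : ∀ i < n, w i ≤ ω)
    (hsum : ∑ i ∈ range n, w i = 1) (h : ℕ) (hh : 1 ≤ h) :
    ‖∑ i ∈ range n, (w i : ℂ) * ee (h * ∑ l ∈ range i, w l)‖ ≤ 2 * Real.pi * h * ω := by
  have hhpos : (1 : ℝ) ≤ h := by exact_mod_cast hh
  by_cases hbig : 2 * Real.pi * h * ω ≤ 1
  · set z : ℕ → ℂ := fun i => Complex.I * ((2 * Real.pi * (h * w i) : ℝ) : ℂ) with hz
    have hznorm : ∀ i, ‖z i‖ = 2 * Real.pi * (h * w i) := by
      intro i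
      rw [hz]
      simp only
      rw [norm_mul, Complex.norm_I, one_mul, Complex.norm_real, Real.norm_eq_abs,
        abs_of_nonneg]
      have := hw0 i
      have := Real.pi_pos
      positivity
    have htel : ∑ i ∈ range n, (ee (h * ∑ l ∈ range (i + 1), w l) - ee (h * ∑ l ∈ range i, w l)) = 0 := by
      rw [Finset.sum_range_sub (fun i => ee (h * ∑ l ∈ range i, w l)), hsum]
      simp [ee_nat, ee_zero]
    have hstep : ∀ i, ee (h * ∑ l ∈ range (i + 1), w l) - ee (h * ∑ l ∈ range i, w l) =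
        ee (h * ∑ l ∈ range i, w l) * (Complex.exp (z i) - 1) := by
      intro i
      rw [Finset.sum_range_succ, mul_add, ee_add, hz]
      simp only [ee]
      ring
    have h1 : ∑ i ∈ range n, ee (h * ∑ l ∈ range i, w l) * z i =
        - ∑ i ∈ range n, ee (h * ∑ l ∈ range i, w l) * (Complex.exp (z i) - 1 - z i) := by
      have h2 : ∑ i ∈ range n, ee (h * ∑ l ∈ range i, w l) * (Complex.exp (z i) - 1) = 0 := by
        rw [← htel]
        exact Finset.sum_congr rfl (fun i _ => (hstep i).symm)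
      have h3 : ∑ i ∈ range n, ee (h * ∑ l ∈ range i, w l) * (Complex.exp (z i) - 1 - z i) =
        ∑ i ∈ range n, ee (h * ∑ l ∈ range i, w l) * (Complex.exp (z i) - 1) -
        ∑ i ∈ range n, ee (h * ∑ l ∈ range i, w l) * z i := by
        rw [← Finset.sum_sub_distrib]
        exact Finset.sum_congr rfl (fun i _ => by ring)
      rw [h3, h2]; ring
    have h4 : ‖∑ i ∈ range n, ee (h * ∑ l ∈ range i, w l) * z i‖ ≤
        (2 * Real.pi * h) * (2 * Real.pi * h * ω) := by
      rw [h1, norm_neg]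
      calc ‖∑ i ∈ range n, ee (h * ∑ l ∈ range i, w l) * (Complex.exp (z i) - 1 - z i)‖
          ≤ ∑ i ∈ range n, ‖ee (h * ∑ l ∈ range i, w l) * (Complex.exp (z i) - 1 - z i)‖ :=
            norm_sum_le _ _
        _ ≤ ∑ i ∈ range n, (2 * Real.pi * h) * (2 * Real.pi * h * ω) * w i := by
            refine Finset.sum_le_sum (fun i hi => ?_)
            rw [norm_mul, norm_ee, one_mul]
            have hwi := hwω i (mem_range.1 hi)
            have hw0i := hw0 i
            have hzle : ‖z i‖ ≤ 1 := by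
              rw [hznorm i]
              calc 2 * Real.pi * (h * w i) = 2 * Real.pi * h * w i := by ring
                _ ≤ 2 * Real.pi * h * ω := by
                    apply mul_le_mul_of_nonneg_left hwi
                    have := Real.pi_pos; positivity
                _ ≤ 1 := hbig
            calc ‖Complex.exp (z i) - 1 - z i‖ ≤ ‖z i‖ ^ 2 := Complex.norm_exp_sub_one_sub_id_le hzle
              _ = (2 * Real.pi * h) * (2 * Real.pi * h * w i) * w i := by rw [hznorm i]; ring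
              _ ≤ (2 * Real.pi * h) * (2 * Real.pi * h * ω) * w i := by
                  apply mul_le_mul_of_nonneg_right _ hw0i
                  have := Real.pi_pos
                  apply mul_le_mul_of_nonneg_left _ (by positivity)
                  apply mul_le_mul_of_nonneg_left hwi (by positivity)
        _ = (2 * Real.pi * h) * (2 * Real.pi * h * ω) := by
            rw [← Finset.mul_sum, hsum, mul_one]
    have h5 : ∑ i ∈ range n, ee (h * ∑ l ∈ range i, w l) * z i =
        (Complex.I * ((2 * Real.pi * h : ℝ) : ℂ)) *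
          ∑ i ∈ range n, (w i : ℂ) * ee (h * ∑ l ∈ range i, w l) := by
      rw [Finset.mul_sum]
      refine Finset.sum_congr rfl (fun i _ => ?_)
      rw [hz]
      simp only
      push_cast
      ring
    rw [h5, norm_mul, norm_mul, Complex.norm_I, one_mul, Complex.norm_real, Real.norm_eq_abs,
      abs_of_nonneg (by have := Real.pi_pos; positivity)] at h4
    exact le_of_mul_le_mul_left h4 (by have := Real.pi_pos; positivity)
  · push Not at hbig
    calc ‖∑ i ∈ range n, (w i : ℂ) * ee (h * ∑ l ∈ range i, w l)‖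
        ≤ ∑ i ∈ range n, ‖(w i : ℂ) * ee (h * ∑ l ∈ range i, w l)‖ := norm_sum_le _ _
      _ = ∑ i ∈ range n, w i := by
          refine Finset.sum_congr rfl (fun i _ => ?_)
          rw [norm_mul, norm_ee, mul_one, Complex.norm_real, Real.norm_eq_abs, abs_of_nonneg (hw0 i)]
      _ = 1 := hsum
      _ ≤ _ := hbig.le

/-- Gaussian type sum -/
lemma gauss_sum {β : ℝ} (hβ : 0 < β) (T : ℕ) :
    ∑ h ∈ Ico 1 T, (h : ℝ) * Real.exp (-(β * h ^ 2)) ≤ 2 / β := by
  have key : ∀ T : ℕ, ∑ h ∈ range T, ((h : ℝ) + 1) * Real.exp (-(β * ((h : ℝ) + 1) ^ 2)) ≤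
      2 / β * (1 - 1 / (1 + β * (T : ℝ) ^ 2 / 2)) := by
    intro T
    induction T with
    | zero => simp
    | succ T ih =>
      rw [Finset.sum_range_succ]
      have h1 : ((T : ℝ) + 1) * Real.exp (-(β * ((T : ℝ) + 1) ^ 2)) ≤
          2 / β * (1 / (1 + β * (T : ℝ) ^ 2 / 2) - 1 / (1 + β * ((T : ℝ) + 1) ^ 2 / 2)) := by
        have hT : (0 : ℝ) ≤ T := Nat.cast_nonneg T
        set a := 1 + β * (T : ℝ) ^ 2 / 2 with ha
        set b := 1 + β * ((T : ℝ) + 1) ^ 2 / 2 with hb
        have hapos : 0 < a := by positivity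
        have hbpos : 0 < b := by positivity
        have hab : a ≤ b := by
          rw [ha, hb]; nlinarith
        have hexp : b ^ 2 ≤ Real.exp (β * ((T : ℝ) + 1) ^ 2) := by
          have h2 : b ≤ Real.exp (β * ((T : ℝ) + 1) ^ 2 / 2) := by
            have := Real.add_one_le_exp (β * ((T : ℝ) + 1) ^ 2 / 2)
            linarith
          calc b ^ 2 ≤ Real.exp (β * ((T : ℝ) + 1) ^ 2 / 2) ^ 2 := pow_le_pow_left₀ hbpos.le h2 2
            _ = Real.exp (β * ((T : ℝ) + 1) ^ 2) := by
                rw [← Real.exp_nat_mul]; congr 1; push_cast; ring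
        rw [Real.exp_neg]
        have h3 : (Real.exp (β * ((T : ℝ) + 1) ^ 2))⁻¹ ≤ 1 / (a * b) := by
          rw [inv_eq_one_div]
          apply one_div_le_one_div_of_le (by positivity)
          calc a * b ≤ b * b := by nlinarith
            _ = b ^ 2 := by ring
            _ ≤ _ := hexp
        have h4 : 2 / β * (1 / a - 1 / b) = (2 * T + 1) * (1 / (a * b)) := by
          have : b - a = β * (2 * T + 1) / 2 := by rw [ha, hb]; ring
          rw [div_sub_div _ _ hapos.ne' hbpos.ne', one_mul, mul_one, this]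
          field_simp
        rw [h4]
        have h5 : 0 ≤ 1 / (a * b) := by positivity
        calc ((T : ℝ) + 1) * (Real.exp (β * ((T : ℝ) + 1) ^ 2))⁻¹
            ≤ ((T : ℝ) + 1) * (1 / (a * b)) := mul_le_mul_of_nonneg_left h3 (by positivity)
          _ ≤ (2 * T + 1) * (1 / (a * b)) := mul_le_mul_of_nonneg_right (by linarith) h5
      have h6 : (((T + 1 : ℕ) : ℝ)) = (T : ℝ) + 1 := by push_cast; ring
      rw [h6]
      have h7 : 2 / β * (1 - 1 / (1 + β * (T : ℝ) ^ 2 / 2)) +
          2 / β * (1 / (1 + β * (T : ℝ) ^ 2 / 2) - 1 / (1 + β * ((T : ℝ) + 1) ^ 2 / 2)) =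
          2 / β * (1 - 1 / (1 + β * ((T : ℝ) + 1) ^ 2 / 2)) := by ring
      linarith
  rw [Finset.sum_Ico_eq_sum_range]
  have h1 := key (T - 1)
  have h2 : ∑ k ∈ range (T - 1), (((1 + k : ℕ) : ℝ)) * Real.exp (-(β * (((1 + k : ℕ) : ℝ)) ^ 2)) =
      ∑ h ∈ range (T - 1), ((h : ℝ) + 1) * Real.exp (-(β * ((h : ℝ) + 1) ^ 2)) := by
    refine Finset.sum_congr rfl (fun k _ => ?_)
    push_cast
    rw [add_comm (1 : ℝ)]
  rw [h2]
  refine h1.trans ?_
  have h3 : 0 ≤ 1 / (1 + β * ((T - 1 : ℕ) : ℝ) ^ 2 / 2) := by positivity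
  have h4 : 0 < 2 / β := by positivity
  nlinarith

end Pool.Agent.Helper307.UF
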