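import Mathlib
import Pool.Agent.Helper307.UF.Kernel

set_option autoImplicit false

namespace Pool.Agent.Helper307.UF

open Finset

/-- sum of the reciprocals of a multiset -/
noncomputable def sg (A : Multiset ℕ) : ℝ := (A.map (fun n : ℕ => (1 : ℝ) / (n : ℝ))).sum

lemma sg_add (A B : Multiset ℕ) : sg (A + B) = sg A + sg B := by
  simp [sg]

lemma sg_zero : sg 0 = 0 := by simp [sg]

lemma sg_replicate (c a : ℕ) : sg (Multiset.replicate c a) = c * (1 / (a : ℝ)) := by
  simp [sg]

lemma sg_map_range (b : ℕ → ℕ) (i : ℕ) :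
    sg ((Multiset.range i).map b) = ∑ l ∈ range i, (1 : ℝ) / (b l : ℝ) := by
  simp [sg, Finset.sum, Multiset.map_map, Finset.range_val]

lemma sg_sum {ι : Type*} (s : Finset ι) (f : ι → Multiset ℕ) :
    sg (∑ l ∈ s, f l) = ∑ l ∈ s, sg (f l) := by
  classical
  induction s using Finset.induction_on with
  | empty => simp [sg_zero]
  | insert a s ha ih => rw [Finset.sum_insert ha, Finset.sum_insert ha, sg_add, ih]

/-- enumeration of `E`, every element repeated `R` times -/
noncomputable def enum (E : Finset ℕ) (R D : ℕ) (i : ℕ) : ℕ :=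
  if h : i / R < E.card then ((E.equivFin.symm ⟨i / R, h⟩ : E) : ℕ) else D

lemma enum_mem {E : Finset ℕ} {R D i : ℕ} (hi : i < E.card * R) : enum E R D i ∈ E := by
  have hR : 0 < R := by
    rcases Nat.eq_zero_or_pos R with h | h
    · rw [h] at hi; simp at hi
    · exact h
  have h : i / R < E.card := (Nat.div_lt_iff_lt_mul hR).2 hi
  unfold enum
  rw [dif_pos h]
  exact Subtype.coe_prop _

lemma enum_ge {E : Finset ℕ} {R D : ℕ} (hE : ∀ a ∈ E, D ≤ a) (i : ℕ) : D ≤ enum E R D i := by
  unfold enum
  split_ifs with h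
  · exact hE _ (Subtype.coe_prop _)
  · exact le_rfl

lemma enum_count {E : Finset ℕ} {R D : ℕ} (i a : ℕ) (hi : i ≤ E.card * R) :
    Multiset.count a ((Multiset.range i).map (enum E R D)) ≤ if a ∈ E then R else 0 := by
  rw [Multiset.count_map]
  have h1 : Multiset.card (Multiset.filter (fun l => a = enum E R D l) (Multiset.range i)) =
      ((range i).filter (fun l => a = enum E R D l)).card := by
    rfl
  rw [h1]
  by_cases ha : a ∈ E
  · rw [if_pos ha]
    set q : ℕ := (E.equivFin ⟨a, ha⟩ : ℕ) with hq
    have hsub : (range i).filter (fun l => a = enum E R D l) ⊆ Ico (q * R) (q * R + R) := by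
      intro l hl
      rw [mem_filter, mem_range] at hl
      have hR : 0 < R := by
        rcases Nat.eq_zero_or_pos R with h | h
        · rw [h] at hi; simp at hi; omega
        · exact h
      have hlt : l / R < E.card := (Nat.div_lt_iff_lt_mul hR).2 (by omega)
      have h2 := hl.2
      unfold enum at h2
      rw [dif_pos hlt] at h2
      have h3 : (⟨a, ha⟩ : E) = E.equivFin.symm ⟨l / R, hlt⟩ := Subtype.ext h2
      have h4 : E.equivFin ⟨a, ha⟩ = ⟨l / R, hlt⟩ := by
        rw [h3]; simp
      have h5 : q = l / R := by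
        rw [hq, h4]
      rw [mem_Ico]
      constructor
      · rw [h5]; exact Nat.div_mul_le_self l R
      · rw [h5]
        have := Nat.lt_div_mul_add (a := l) hR
        exact this
    calc _ ≤ (Ico (q * R) (q * R + R)).card := card_le_card hsub
      _ = R := by simp
  · rw [if_neg ha]
    rw [Nat.le_zero, Finset.card_eq_zero, Finset.filter_eq_empty_iff]
    intro l hl h
    apply ha
    rw [h]
    rw [mem_range] at hl
    exact enum_mem (by omega)

lemma gadget_count {N : ℕ} {E : Finset ℕ} {R : ℕ} (v : Fin N → ℕ) (hv : Function.Injective v)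
    (hvE : ∀ l, v l ∈ E) (c : Fin N → ℕ) (hc : ∀ l, c l ≤ R) (a : ℕ) :
    Multiset.count a (∑ l : Fin N, Multiset.replicate (c l) (v l)) ≤ if a ∈ E then R else 0 := by
  rw [Multiset.count_sum']
  simp only [Multiset.count_replicate]
  by_cases h : ∃ l0, v l0 = a
  · obtain ⟨l0, hl0⟩ := h
    have haE : a ∈ E := hl0 ▸ hvE l0
    rw [if_pos haE]
    have h1 : ∑ l : Fin N, (if v l = a then c l else 0) = c l0 := by
      rw [Finset.sum_eq_single l0]
      · rw [if_pos hl0]
      · intro l _ hne
        rw [if_neg]
        intro h; exact hne (hv (h.trans hl0.symm))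
      · intro h; exact absurd (mem_univ _) h
    rw [h1]
    exact hc l0
  · push Not at h
    have h1 : ∑ l : Fin N, (if v l = a then c l else 0) = 0 := by
      apply Finset.sum_eq_zero
      intro l _
      rw [if_neg (h l)]
    rw [h1]
    exact Nat.zero_le _

end Pool.Agent.Helper307.UF
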