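import Mathlib
import Pool.Agent.Helper307.UF.Multi

set_option autoImplicit false

namespace Pool.Agent.Helper307.UF

open Finset

/-- one group, low frequency -/
lemma group_low {g ρ D : ℕ} (hρ : 0 < ρ) (hD : 0 < D) (e : Fin g → ℕ) (he : ∀ s, D ≤ e s ∧ e s < 2 * D)
    (t : ℝ) (ht : 0 ≤ t) (htD : ((ρ : ℝ) + ρ) * t ≤ D) :
    ‖∑ y : Fin g × Fin (ρ + ρ), ee ((y.2 : ℕ) * (t / (e y.1 : ℝ)))‖ ≤
      (g * ((ρ : ℝ) + ρ)) * Real.exp (-((((ρ : ℝ) + ρ) * t / (2 * D)) ^ 2 / 2)) := by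
  rw [Fintype.sum_prod_type]
  have hDpos : (0 : ℝ) < D := by exact_mod_cast hD
  have h1 : ∀ s : Fin g, ‖∑ c : Fin (ρ + ρ), ee (((c : ℕ) : ℝ) * (t / (e s : ℝ)))‖ ≤
      ((ρ : ℝ) + ρ) * Real.exp (-((((ρ : ℝ) + ρ) * t / (2 * D)) ^ 2 / 2)) := by
    intro s
    rw [Fin.sum_univ_eq_sum_range (fun c => ee ((c : ℝ) * (t / (e s : ℝ))))]
    obtain ⟨h1, h2⟩ := he s
    have h1' : (D : ℝ) ≤ e s := by exact_mod_cast h1
    have h2' : (e s : ℝ) ≤ 2 * D := by exact_mod_cast h2.le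
    have hepos : (0 : ℝ) < e s := by linarith
    have h3 : 0 ≤ t / (e s : ℝ) := by positivity
    have h4 : ((ρ : ℝ) + ρ) * (t / (e s : ℝ)) ≤ 1 := by
      rw [← mul_div_assoc, div_le_one hepos]
      linarith
    refine (low_bound h3 h4).trans ?_
    apply mul_le_mul_of_nonneg_left _ (by positivity)
    apply Real.exp_le_exp.2
    have h5 : ((ρ : ℝ) + ρ) * t / (2 * D) ≤ ((ρ : ℝ) + ρ) * (t / (e s : ℝ)) := by
      rw [← mul_div_assoc]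
      exact div_le_div_of_nonneg_left (by positivity) hepos h2'
    have h6 : 0 ≤ ((ρ : ℝ) + ρ) * t / (2 * D) := by positivity
    nlinarith
  calc ‖∑ s : Fin g, ∑ c : Fin (ρ + ρ), ee (((c : ℕ) : ℝ) * (t / (e s : ℝ)))‖
      ≤ ∑ s : Fin g, ‖∑ c : Fin (ρ + ρ), ee (((c : ℕ) : ℝ) * (t / (e s : ℝ)))‖ := norm_sum_le _ _
    _ ≤ ∑ s : Fin g, ((ρ : ℝ) + ρ) * Real.exp (-((((ρ : ℝ) + ρ) * t / (2 * D)) ^ 2 / 2)) :=
        Finset.sum_le_sum (fun s _ => h1 s)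
    _ = _ := by simp; ring

/-- one group, high frequency -/
lemma group_high {g ρ : ℕ} (hg : 0 < g) (e : Fin g → ℕ) (t : ℝ) (G : Finset (Fin g))
    (hG : ∀ s ∈ G, 1 ≤ 2 * ((ρ : ℝ) + ρ) * |t / (e s : ℝ) - round (t / (e s : ℝ))|) :
    ‖∑ y : Fin g × Fin (ρ + ρ), ee ((y.2 : ℕ) * (t / (e y.1 : ℝ)))‖ ≤
      (g * ((ρ : ℝ) + ρ)) * Real.exp (-((G.card : ℝ) / (8 * g))) := by
  classical
  rw [Fintype.sum_prod_type]
  have hgpos : (0 : ℝ) < g := by exact_mod_cast hg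
  have h1 : ∀ s : Fin g, ‖∑ c : Fin (ρ + ρ), ee (((c : ℕ) : ℝ) * (t / (e s : ℝ)))‖ ≤
      ((ρ : ℝ) + ρ) * (1 - if s ∈ G then 1 / 8 else 0) := by
    intro s
    rw [Fin.sum_univ_eq_sum_range (fun c => ee ((c : ℝ) * (t / (e s : ℝ))))]
    split_ifs with hs
    · refine (high_bound (hG s hs)).trans (le_of_eq ?_)
      ring
    · calc ‖∑ c ∈ range (ρ + ρ), ee ((c : ℝ) * (t / (e s : ℝ)))‖
          ≤ ∑ c ∈ range (ρ + ρ), ‖ee ((c : ℝ) * (t / (e s : ℝ)))‖ := norm_sum_le _ _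
        _ = _ := by simp [norm_ee]
  calc ‖∑ s : Fin g, ∑ c : Fin (ρ + ρ), ee (((c : ℕ) : ℝ) * (t / (e s : ℝ)))‖
      ≤ ∑ s : Fin g, ‖∑ c : Fin (ρ + ρ), ee (((c : ℕ) : ℝ) * (t / (e s : ℝ)))‖ := norm_sum_le _ _
    _ ≤ ∑ s : Fin g, ((ρ : ℝ) + ρ) * (1 - if s ∈ G then 1 / 8 else 0) :=
        Finset.sum_le_sum (fun s _ => h1 s)
    _ = ((ρ : ℝ) + ρ) * (g - G.card / 8) := by
        rw [← Finset.mul_sum, Finset.sum_sub_distrib]
        congr 1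
        rw [Finset.sum_ite_mem, Finset.univ_inter]
        simp
        ring
    _ = (g * ((ρ : ℝ) + ρ)) * (1 - G.card / (8 * g)) := by
        field_simp
    _ ≤ _ := by
        apply mul_le_mul_of_nonneg_left _ (by positivity)
        have := Real.add_one_le_exp (-((G.card : ℝ) / (8 * g)))
        linarith

/-- product over groups -/
lemma prod_groups {N g ρ : ℕ} (e : Fin N × Fin g → ℕ) (t : ℝ) :
    ∑ ω : Fin N → Fin g × Fin (ρ + ρ), ee (t * ∑ l, ((ω l).2 : ℕ) * (1 / (e (l, (ω l).1) : ℝ))) =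
      ∏ l : Fin N, ∑ y : Fin g × Fin (ρ + ρ), ee ((y.2 : ℕ) * (t / (e (l, y.1) : ℝ))) := by
  have h1 := Finset.prod_univ_sum (fun _ : Fin N => (univ : Finset (Fin g × Fin (ρ + ρ))))
    (fun l y => ee ((y.2 : ℕ) * (t / (e (l, y.1) : ℝ))))
  rw [h1, Fintype.piFinset_univ]
  refine Finset.sum_congr rfl (fun ω _ => ?_)
  have h2 : ∀ (s : Finset (Fin N)) (f : Fin N → ℝ), ee (∑ l ∈ s, f l) = ∏ l ∈ s, ee (f l) := by
    intro s f
    classical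
    induction s using Finset.induction_on with
    | empty => simp [ee_zero]
    | insert a s ha ih => rw [Finset.sum_insert ha, Finset.prod_insert ha, ee_add, ih]
  rw [Finset.mul_sum, h2]
  refine Finset.prod_congr rfl (fun l _ => ?_)
  congr 1
  ring

end Pool.Agent.Helper307.UF
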