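import Mathlib
import Pool.Agent.Helper307.UF.Groups

set_option autoImplicit false

namespace Pool.Agent.Helper307.UF

open Finset

/-- the final choice of the sub-multiset -/
lemma build {N g ρ D : ℕ} (A : Multiset ℕ) (E : Finset ℕ)
    (hE : ∀ a ∈ E, 4 * ρ ≤ A.count a) (e : Fin N × Fin g ↪ E) (i : ℕ) (hi : i ≤ E.card * (ρ + ρ))
    (ω : Fin N → Fin g × Fin (ρ + ρ)) :
    ∃ S : Multiset ℕ, S ≤ A ∧ sg S = ∑ l ∈ range i, (1 : ℝ) / (enum E (ρ + ρ) D l : ℝ) +
      ∑ l, (((ω l).2 : ℕ) : ℝ) * (1 / ((e (l, (ω l).1) : ℕ) : ℝ)) := by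
  refine ⟨(Multiset.range i).map (enum E (ρ + ρ) D) +
    ∑ l : Fin N, Multiset.replicate ((ω l).2 : ℕ) (e (l, (ω l).1) : ℕ), ?_, ?_⟩
  · rw [Multiset.le_iff_count]
    intro a
    rw [Multiset.count_add]
    have h1 := enum_count (D := D) i a hi
    have h2 := gadget_count (N := N) (E := E) (R := ρ + ρ) (fun l => (e (l, (ω l).1) : ℕ))
      (by
        intro l l' h
        have h3 := e.injective (Subtype.ext h)
        exact (Prod.ext_iff.1 h3).1)
      (fun l => Subtype.coe_prop _) (fun l => ((ω l).2 : ℕ)) (fun l => (ω l).2.2.le) a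
    by_cases ha : a ∈ E
    · rw [if_pos ha] at h1 h2
      have := hE a ha
      omega
    · rw [if_neg ha] at h1 h2
      omega
  · rw [sg_add, sg_map_range, sg_sum]
    congr 1
    exact Finset.sum_congr rfl (fun l _ => sg_replicate _ _)

theorem key (J N ρ : ℕ) (A : Multiset ℕ) (E : Finset ℕ) (hJ : 1 ≤ J) (hρ : 2048 ≤ ρ)
    (hN : 256 * J ≤ N)
    (hE : ∀ a ∈ E, 4 * N * ρ ≤ a ∧ a < 8 * N * ρ ∧ 4 * ρ ≤ A.count a)
    (hcard : 8 * N ≤ E.card)
    (hbad : ∀ t : ℝ, (2 * N : ℝ) < t → t < 2 ^ (2 * J + 4) → ∀ B ⊆ E,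
      (∀ a ∈ B, ∃ n : ℕ, |t - n * a| < (2 * N : ℝ)) → 2 * B.card ≤ E.card) :
    ∃ S : Multiset ℕ, S ≤ A ∧ 1 - (1 / 2 : ℝ) ^ J < sg S ∧ sg S ≤ 1 := by
  classical
  have hNpos : 0 < N := by omega
  have hρpos : 0 < ρ := by omega
  set R : ℕ := ρ + ρ with hR
  set D : ℕ := 4 * N * ρ with hD
  have hDpos : 0 < D := by positivity
  have hNr : (0 : ℝ) < N := by exact_mod_cast hNpos
  have hρr : (2048 : ℝ) ≤ ρ := by exact_mod_cast hρ
  have hDr : (D : ℝ) = 4 * N * ρ := by rw [hD]; push_cast; ring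
  have hDrpos : (0 : ℝ) < D := by exact_mod_cast hDpos
  have hRr : (R : ℝ) = (ρ : ℝ) + ρ := by rw [hR]; push_cast; ring
  have hEa : ∀ a ∈ E, D ≤ a ∧ a < 2 * D := by
    intro a ha
    obtain ⟨h1, h2, _⟩ := hE a ha
    refine ⟨h1, ?_⟩
    have : 2 * D = 8 * N * ρ := by rw [hD]; ring
    omega
  -- groups
  set g : ℕ := E.card / N with hg
  have hg8 : 8 ≤ g := by
    rw [hg, Nat.le_div_iff_mul_le hNpos]; exact hcard
  have hgN : N * g ≤ E.card := by
    rw [hg]; exact Nat.mul_div_le _ _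
  have hgN2 : E.card < N * g + N := by
    rw [hg]
    have := Nat.lt_div_mul_add (a := E.card) hNpos
    rw [mul_comm] at this
    exact this
  have hgpos : 0 < g := by omega
  obtain ⟨e⟩ : Nonempty (Fin N × Fin g ↪ E) := by
    apply Function.Embedding.nonempty_of_card_le
    rw [Fintype.card_prod, Fintype.card_fin, Fintype.card_fin, Fintype.card_coe]
    exact hgN
  -- chain
  set b : ℕ → ℕ := enum E R D with hb
  have hbD : ∀ i, D ≤ b i := fun i => enum_ge (fun a ha => (hEa a ha).1) i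
  have hbpos : ∀ i, (0 : ℝ) < b i := fun i => by
    have : D ≤ b i := hbD i
    have : 0 < b i := by omega
    exact_mod_cast this
  have hbDr : ∀ i, (D : ℝ) ≤ b i := fun i => by exact_mod_cast hbD i
  set s : ℕ → ℝ := fun i => ∑ l ∈ range i, (1 : ℝ) / (b l : ℝ) with hs
  have hsbig : 1 ≤ s (E.card * R) := by
    have h1 : ∀ l ∈ range (E.card * R), (1 : ℝ) / (2 * D) ≤ 1 / (b l : ℝ) := by
      intro l hl
      have h2 : b l ∈ E := enum_mem (mem_range.1 hl)
      have h3 := (hEa _ h2).2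
      apply one_div_le_one_div_of_le (hbpos l)
      exact_mod_cast h3.le
    have h2 := Finset.sum_le_sum h1
    rw [Finset.sum_const, card_range, nsmul_eq_mul] at h2
    refine le_trans ?_ h2
    have h3 : (8 * N : ℝ) ≤ E.card := by exact_mod_cast hcard
    rw [mul_one_div, le_div_iff₀ (by positivity), hDr]
    push_cast
    rw [hRr]
    nlinarith
  have hex : ∃ m, 1 ≤ s m := ⟨_, hsbig⟩
  set n : ℕ := Nat.find hex with hn
  have hn1 : 1 ≤ s n := Nat.find_spec hex
  have hnmin : ∀ m, m < n → s m < 1 := fun m hm => by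
    have := Nat.find_min hex hm
    exact not_le.1 this
  have hnle : n ≤ E.card * R := Nat.find_min' hex hsbig
  have hn0 : 0 < n := by
    rcases Nat.eq_zero_or_pos n with h | h
    · rw [h] at hn1
      simp [hs] at hn1
      linarith
    · exact h
  set M : ℝ := s n with hM
  have hM1 : 1 ≤ M := hn1
  have hMpos : 0 < M := by linarith
  have hM2 : M ≤ 2 := by
    have h1 : s n = s (n - 1) + 1 / (b (n - 1) : ℝ) := by
      have h2 : n = (n - 1) + 1 := by omega
      conv_lhs => rw [h2]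
      rw [hs]
      simp only
      rw [Finset.sum_range_succ]
    have h2 := hnmin (n - 1) (by omega)
    have h3 : 1 / (b (n - 1) : ℝ) ≤ 1 := by
      rw [div_le_one (hbpos _)]
      have : 1 ≤ b (n - 1) := by have := hbD (n - 1); omega
      exact_mod_cast this
    rw [hM, h1]; linarith
  set w' : ℕ → ℝ := fun i => 1 / (b i : ℝ) / M with hw'
  have hw'0 : ∀ i, 0 ≤ w' i := fun i => by
    have := hbpos i
    rw [hw']; positivity
  have hw'sum : ∀ i, ∑ l ∈ range i, w' l = s i / M := by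
    intro i
    rw [hw', hs]
    simp only
    rw [Finset.sum_div]
  have hw'1 : ∑ l ∈ range n, w' l = 1 := by
    rw [hw'sum n, ← hM]
    exact div_self hMpos.ne'
  have hw'D : ∀ i < n, w' i ≤ 1 / D := by
    intro i _
    rw [hw']
    simp only
    have h1 := hbpos i
    rw [div_div]
    apply one_div_le_one_div_of_le hDrpos
    have := hbDr i
    nlinarith
  -- the random part
  set Z : (Fin N → Fin g × Fin R) → ℝ := fun ω =>
    ∑ l, (((ω l).2 : ℕ) : ℝ) * (1 / ((e (l, (ω l).1) : ℕ) : ℝ)) with hZ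
  have heD : ∀ p, D ≤ ((e p : E) : ℕ) ∧ ((e p : E) : ℕ) < 2 * D := fun p => hEa _ (Subtype.coe_prop _)
  have hZ0 : ∀ ω, 0 ≤ Z ω := fun ω => by
    rw [hZ]; positivity
  have hZhalf : ∀ ω, Z ω ≤ 1 / 2 := by
    intro ω
    rw [hZ]
    simp only
    have h1 : ∀ l ∈ (univ : Finset (Fin N)),
        (((ω l).2 : ℕ) : ℝ) * (1 / ((e (l, (ω l).1) : ℕ) : ℝ)) ≤ R * (1 / D) := by
      intro l _
      have h2 := (heD (l, (ω l).1)).1
      have h3 : (((ω l).2 : ℕ) : ℝ) ≤ R := by exact_mod_cast (ω l).2.2.le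
      have h4 : (1 : ℝ) / ((e (l, (ω l).1) : ℕ) : ℝ) ≤ 1 / D :=
        one_div_le_one_div_of_le hDrpos (by exact_mod_cast h2)
      have h5 : (0 : ℝ) ≤ 1 / ((e (l, (ω l).1) : ℕ) : ℝ) := by positivity
      have h6 : (0 : ℝ) ≤ R := Nat.cast_nonneg R
      exact mul_le_mul h3 h4 h5 h6
    refine (Finset.sum_le_sum h1).trans ?_
    rw [Finset.sum_const, card_univ, Fintype.card_fin, nsmul_eq_mul, hRr, hDr]
    apply le_of_eq
    have : (ρ : ℝ) ≠ 0 := by positivity
    field_simp
    ring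
  set Q : ℝ := ((g : ℝ) * ((ρ : ℝ) + ρ)) ^ N with hQ
  have hQpos : 0 < Q := by
    have : (0 : ℝ) < g := by exact_mod_cast hgpos
    rw [hQ]; positivity
  set η : ℝ := (1 / 2 : ℝ) ^ J with hη
  have hηpos : 0 < η := by rw [hη]; positivity
  have hηhalf : η ≤ 1 / 2 := by
    rw [hη]
    calc (1 / 2 : ℝ) ^ J ≤ (1 / 2 : ℝ) ^ 1 := pow_le_pow_of_le_one (by norm_num) (by norm_num) hJ
      _ = 1 / 2 := by norm_num
  set x0 : ℝ := 1 - η / 2 with hx0
  set β : ℝ := 1 / (128 * N) with hβ
  have hβpos : 0 < β := by rw [hβ]; positivity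
  set T : ℕ := 2 ^ (2 * J + 4) with hT
  have hTr : (T : ℝ) = 2 ^ (2 * J + 4) := by rw [hT]; push_cast; ring
  set ε : ℕ → ℝ := fun h => 2 * Real.pi * h * (1 / D) * Real.exp (-(β * h ^ 2)) +
    (1 / 2 : ℝ) ^ (2 * J + 9) with hε
  have hε0 : ∀ h, 0 ≤ ε h := by
    intro h
    rw [hε]
    have := Real.pi_pos
    positivity
  have hεsum : ∑ h ∈ Ico 1 T, ε h ≤ 1 / 4 := by
    rw [hε]
    simp only
    rw [Finset.sum_add_distrib]
    have h1 : ∑ h ∈ Ico 1 T, 2 * Real.pi * h * (1 / D) * Real.exp (-(β * (h : ℝ) ^ 2)) =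
        (2 * Real.pi / D) * ∑ h ∈ Ico 1 T, (h : ℝ) * Real.exp (-(β * (h : ℝ) ^ 2)) := by
      rw [Finset.mul_sum]
      refine Finset.sum_congr rfl (fun h _ => ?_)
      ring
    rw [h1]
    have h2 := gauss_sum hβpos T
    have h3 : (2 * Real.pi / D) * ∑ h ∈ Ico 1 T, (h : ℝ) * Real.exp (-(β * (h : ℝ) ^ 2)) ≤
        (2 * Real.pi / D) * (2 / β) := by
      apply mul_le_mul_of_nonneg_left h2
      have := Real.pi_pos
      positivity
    have h4 : (2 * Real.pi / D) * (2 / β) = 128 * Real.pi / ρ := by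
      rw [hβ, hDr]
      have : (ρ : ℝ) ≠ 0 := by positivity
      field_simp
      ring
    have h5 : 128 * Real.pi / ρ ≤ 128 * 3.15 / 2048 := by
      have := Real.pi_lt_d2
      apply div_le_div₀ (by norm_num) (by linarith) (by norm_num) hρr
    have h6 : ∑ h ∈ Ico 1 T, (1 / 2 : ℝ) ^ (2 * J + 9) ≤ 1 / 32 := by
      rw [Finset.sum_const, Nat.card_Ico, nsmul_eq_mul]
      have h7 : ((T - 1 : ℕ) : ℝ) ≤ 2 ^ (2 * J + 4) := by
        rw [← hTr]
        exact_mod_cast Nat.sub_le _ _
      calc ((T - 1 : ℕ) : ℝ) * (1 / 2 : ℝ) ^ (2 * J + 9) ≤ 2 ^ (2 * J + 4) * (1 / 2 : ℝ) ^ (2 * J + 9) :=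
            mul_le_mul_of_nonneg_right h7 (by positivity)
        _ = (2 * (1 / 2 : ℝ)) ^ (2 * J + 4) * (1 / 2 : ℝ) ^ 5 := by
            rw [mul_pow, show 2 * J + 9 = (2 * J + 4) + 5 by ring, pow_add _ (2 * J + 4) 5, mul_assoc]
        _ = 1 / 32 := by norm_num
    rw [h4] at h3
    norm_num at h5 h6 ⊢
    linarith
  -- the main Fourier bound
  have hmain : ∀ h ∈ Ico 1 T, ‖∑ j ∈ (range n) ×ˢ (univ : Finset (Fin N → Fin g × Fin R)),
      ((w' j.1 / Q : ℝ) : ℂ) * ee ((h : ℝ) * ((s j.1 + Z j.2 - x0) / M))‖ ≤ ε h := by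
    intro h hh
    rw [mem_Ico] at hh
    have hh1 : (1 : ℝ) ≤ h := by exact_mod_cast hh.1
    have hfac : ∑ j ∈ (range n) ×ˢ (univ : Finset (Fin N → Fin g × Fin R)),
        ((w' j.1 / Q : ℝ) : ℂ) * ee ((h : ℝ) * ((s j.1 + Z j.2 - x0) / M)) =
        ee (-(h * x0 / M)) * (∑ i ∈ range n, (w' i : ℂ) * ee (h * ∑ l ∈ range i, w' l)) *
        ((1 / Q : ℝ) * ∑ ω : Fin N → Fin g × Fin R, ee ((h / M) * Z ω)) := by
      have hterm : ∀ j ∈ (range n) ×ˢ (univ : Finset (Fin N → Fin g × Fin R)),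
          ((w' j.1 / Q : ℝ) : ℂ) * ee ((h : ℝ) * ((s j.1 + Z j.2 - x0) / M)) =
          (ee (-(h * x0 / M)) * ((w' j.1 : ℂ) * ee (h * ∑ l ∈ range j.1, w' l))) *
            (((1 / Q : ℝ) : ℂ) * ee ((h / M) * Z j.2)) := by
        intro j _
        rw [hw'sum j.1]
        have : (h : ℝ) * ((s j.1 + Z j.2 - x0) / M) =
            -(h * x0 / M) + h * (s j.1 / M) + (h / M) * Z j.2 := by
          field_simp
          ring
        rw [this, ee_add, ee_add]
        push_cast
        ring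
      rw [Finset.sum_congr rfl hterm, Finset.sum_product]
      simp only
      simp only [← Finset.mul_sum, ← Finset.sum_mul]
    rw [hfac, norm_mul, norm_mul, norm_ee, one_mul, norm_mul, Complex.norm_real, Real.norm_eq_abs,
      abs_of_pos (by positivity : 0 < 1 / Q)]
    have hch := chain_bound w' n (1 / D) hw'0 hw'D hw'1 h hh.1
    have hch1 : ‖∑ i ∈ range n, (w' i : ℂ) * ee (h * ∑ l ∈ range i, w' l)‖ ≤ 1 := by
      calc ‖∑ i ∈ range n, (w' i : ℂ) * ee (h * ∑ l ∈ range i, w' l)‖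
          ≤ ∑ i ∈ range n, ‖(w' i : ℂ) * ee (h * ∑ l ∈ range i, w' l)‖ := norm_sum_le _ _
        _ = ∑ i ∈ range n, w' i := by
            refine Finset.sum_congr rfl (fun i _ => ?_)
            rw [norm_mul, norm_ee, mul_one, Complex.norm_real, Real.norm_eq_abs,
              abs_of_nonneg (hw'0 i)]
        _ = 1 := hw'1
    have hprod : ∑ ω : Fin N → Fin g × Fin R, ee ((h / M) * Z ω) =
        ∏ l : Fin N, ∑ y : Fin g × Fin (ρ + ρ), ee ((y.2 : ℕ) * ((h / M) / (((e (l, y.1) : E) : ℕ) : ℝ))) :=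
      prod_groups (fun p => ((e p : E) : ℕ)) (h / M)
    rw [hprod, norm_prod]
    have htpos : 0 < (h : ℝ) / M := by positivity
    by_cases hlow : (h : ℝ) / M ≤ 2 * N
    · -- low frequency
      have h1 : ∏ l : Fin N, ‖∑ y : Fin g × Fin (ρ + ρ), ee ((y.2 : ℕ) * ((h / M) / (((e (l, y.1) : E) : ℕ) : ℝ)))‖
          ≤ ∏ l : Fin N, ((g * ((ρ : ℝ) + ρ)) * Real.exp (-((((ρ : ℝ) + ρ) * (h / M) / (2 * D)) ^ 2 / 2))) := by
        apply Finset.prod_le_prod (fun l _ => norm_nonneg _)
        intro l _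
        refine group_low hρpos hDpos (fun s => ((e (l, s) : E) : ℕ)) (fun s => heD (l, s)) _ htpos.le ?_
        rw [hDr]
        nlinarith
      rw [Finset.prod_const, card_univ, Fintype.card_fin, mul_pow, ← Real.exp_nat_mul, ← hQ] at h1
      have h2 : 1 / Q * ∏ l : Fin N, ‖∑ y : Fin g × Fin (ρ + ρ), ee ((y.2 : ℕ) * ((h / M) / (((e (l, y.1) : E) : ℕ) : ℝ)))‖
          ≤ Real.exp (-(β * h ^ 2)) := by
        calc _ ≤ 1 / Q * (Q * Real.exp (N * -((((ρ : ℝ) + ρ) * (h / M) / (2 * D)) ^ 2 / 2))) :=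
              mul_le_mul_of_nonneg_left h1 (by positivity)
          _ = Real.exp (N * -((((ρ : ℝ) + ρ) * (h / M) / (2 * D)) ^ 2 / 2)) := by
              field_simp
          _ ≤ _ := by
              apply Real.exp_le_exp.2
              have h3 : ((ρ : ℝ) + ρ) * (h / M) / (2 * D) = (h / M) / (4 * N) := by
                rw [hDr]
                have : (ρ : ℝ) ≠ 0 := by positivity
                field_simp
                ring
              rw [h3, hβ]
              have h4 : (h : ℝ) / 2 ≤ h / M := div_le_div_of_nonneg_left (by linarith) hMpos hM2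
              have h5 : ((h : ℝ) / 2 / (4 * N)) ^ 2 ≤ ((h / M) / (4 * N)) ^ 2 := by
                apply pow_le_pow_left₀ (by positivity)
                exact div_le_div_of_nonneg_right h4 (by positivity)
              have h6 : (N : ℝ) * ((((h : ℝ) / 2 / (4 * N)) ^ 2) / 2) = 1 / (128 * N) * h ^ 2 := by
                field_simp
                ring
              have h7 : (N : ℝ) * ((((h : ℝ) / 2 / (4 * N)) ^ 2) / 2) ≤ N * ((((h / M) / (4 * N)) ^ 2) / 2) := by
                apply mul_le_mul_of_nonneg_left _ hNr.le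
                linarith
              linarith
      have h3 : 0 ≤ 1 / Q * ∏ l : Fin N, ‖∑ y : Fin g × Fin (ρ + ρ), ee ((y.2 : ℕ) * ((h / M) / (((e (l, y.1) : E) : ℕ) : ℝ)))‖ := by
        positivity
      calc _ ≤ (2 * Real.pi * h * (1 / D)) * Real.exp (-(β * h ^ 2)) := by
            apply mul_le_mul hch h2 h3
            have := Real.pi_pos
            positivity
        _ ≤ ε h := by
            rw [hε]
            simp only
            have : (0 : ℝ) < (1 / 2 : ℝ) ^ (2 * J + 9) := by positivity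
            linarith
    · -- high frequency
      push Not at hlow
      set t : ℝ := (h : ℝ) / M with ht
      have htT : t < 2 ^ (2 * J + 4) := by
        have h1 : t ≤ h := by rw [ht]; exact div_le_self (by linarith) hM1
        have h2 : (h : ℝ) < T := by exact_mod_cast hh.2
        rw [hTr] at h2
        linarith
      set B : Finset ℕ := E.filter (fun a => ∃ n : ℕ, |t - n * a| < (2 * N : ℝ)) with hB
      have hBcard : 2 * B.card ≤ E.card :=
        hbad t hlow htT B (Finset.filter_subset _ _) (fun a ha => (mem_filter.1 ha).2)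
      set G : Fin N → Finset (Fin g) := fun l => univ.filter (fun s => ((e (l, s) : E) : ℕ) ∉ B) with hG
      have hgood : ∀ l, ∀ s ∈ G l, 1 ≤ 2 * ((ρ : ℝ) + ρ) *
          |t / (((e (l, s) : E) : ℕ) : ℝ) - round (t / (((e (l, s) : E) : ℕ) : ℝ))| := by
        intro l s hs'
        have h1 := (mem_filter.1 hs').2
        have h2 := heD (l, s)
        have hmem : ((e (l, s) : E) : ℕ) ∈ E := Subtype.coe_prop _
        set a : ℕ := ((e (l, s) : E) : ℕ) with ha
        have hapos : (0 : ℝ) < a := by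
          have : 0 < a := by omega
          exact_mod_cast this
        have h3 : ¬ ∃ n : ℕ, |t - n * a| < (2 * N : ℝ) := fun h => h1 (mem_filter.2 ⟨hmem, h⟩)
        push Not at h3
        have h4 : 0 ≤ round (t / (a : ℝ)) := by
          have h5 : 0 ≤ t / (a : ℝ) := by positivity
          rw [round_eq]
          apply Int.floor_nonneg.2
          linarith
        obtain ⟨m, hm⟩ := Int.eq_ofNat_of_zero_le h4
        have h5 := h3 m
        have h6 : |t - m * a| = a * |t / (a : ℝ) - round (t / (a : ℝ))| := by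
          rw [hm]
          rw [← abs_of_pos hapos, ← abs_mul, abs_of_pos hapos]
          congr 1
          field_simp
          push_cast
          ring
        rw [h6] at h5
        have h7 : (a : ℝ) ≤ 2 * D := by exact_mod_cast h2.2.le
        have h8 : 0 ≤ |t / (a : ℝ) - round (t / (a : ℝ))| := abs_nonneg _
        have h9 : 2 * (N : ℝ) ≤ 2 * D * |t / (a : ℝ) - round (t / (a : ℝ))| :=
          h5.trans (mul_le_mul_of_nonneg_right h7 h8)
        rw [hDr] at h9
        have h10 : 2 * (N : ℝ) * 1 ≤ 2 * (N : ℝ) * (2 * ((ρ : ℝ) + ρ) * |t / (a : ℝ) - round (t / (a : ℝ))|) := by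
          linarith
        exact le_of_mul_le_mul_left h10 (by positivity)
      have h1 : ∏ l : Fin N, ‖∑ y : Fin g × Fin (ρ + ρ), ee ((y.2 : ℕ) * (t / (((e (l, y.1) : E) : ℕ) : ℝ)))‖
          ≤ ∏ l : Fin N, ((g * ((ρ : ℝ) + ρ)) * Real.exp (-(((G l).card : ℝ) / (8 * g)))) := by
        apply Finset.prod_le_prod (fun l _ => norm_nonneg _)
        intro l _
        exact group_high hgpos (fun s => ((e (l, s) : E) : ℕ)) t (G l) (hgood l)
      rw [Finset.prod_mul_distrib, Finset.prod_const, card_univ, Fintype.card_fin, ← Real.exp_sum, ← hQ] at h1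
      -- count of good pairs
      have hGcard : (N * g : ℝ) - B.card ≤ ∑ l : Fin N, ((G l).card : ℝ) := by
        have h2 : ∑ l : Fin N, (G l).card = ((univ : Finset (Fin N × Fin g)).filter
            (fun p => ((e p : E) : ℕ) ∉ B)).card := by
          rw [Finset.card_filter, ← Finset.univ_product_univ, Finset.sum_product]
          refine Finset.sum_congr rfl (fun l _ => ?_)
          rw [hG]
          simp only
          rw [Finset.card_filter]
        have h3 : ((univ : Finset (Fin N × Fin g)).filter (fun p => ((e p : E) : ℕ) ∈ B)).card ≤ B.card := by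
          apply Finset.card_le_card_of_injOn (fun p => ((e p : E) : ℕ))
          · intro p hp
            exact (mem_filter.1 hp).2
          · intro p _ q _ hpq
            exact e.injective (Subtype.ext hpq)
        have h4 := Finset.card_filter_add_card_filter_not (s := (univ : Finset (Fin N × Fin g)))
          (fun p => ((e p : E) : ℕ) ∈ B)
        rw [card_univ, Fintype.card_prod, Fintype.card_fin, Fintype.card_fin] at h4
        have h5 : N * g ≤ ∑ l : Fin N, (G l).card + B.card := by omega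
        have h6 : (N * g : ℝ) ≤ ∑ l : Fin N, ((G l).card : ℝ) + B.card := by exact_mod_cast h5
        linarith
      have hsum14 : (14 * J : ℝ) ≤ ∑ l : Fin N, ((G l).card : ℝ) / (8 * g) := by
        rw [← Finset.sum_div]
        have hgr : (8 : ℝ) ≤ g := by exact_mod_cast hg8
        rw [le_div_iff₀ (by positivity)]
        have h2 : (2 * B.card : ℝ) ≤ E.card := by exact_mod_cast hBcard
        have h3 : (E.card : ℝ) ≤ N * g + N := by exact_mod_cast hgN2.le
        have h4 : (256 * J : ℝ) ≤ N := by exact_mod_cast hN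
        have h5 : (N : ℝ) ≤ N * g / 8 := by
          rw [le_div_iff₀ (by norm_num)]
          exact mul_le_mul_of_nonneg_left hgr hNr.le
        have h6 : (7 / 16 : ℝ) * (N * g) ≤ ∑ l : Fin N, ((G l).card : ℝ) := by linarith
        have h7 : (14 * J : ℝ) * (8 * g) ≤ (7 / 16 : ℝ) * (N * g) := by
          have : (256 * J : ℝ) * g ≤ N * g := mul_le_mul_of_nonneg_right h4 (by linarith)
          linarith
        linarith
      have h2 : 1 / Q * ∏ l : Fin N, ‖∑ y : Fin g × Fin (ρ + ρ), ee ((y.2 : ℕ) * (t / (((e (l, y.1) : E) : ℕ) : ℝ)))‖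
          ≤ (1 / 2 : ℝ) ^ (2 * J + 9) := by
        calc _ ≤ 1 / Q * (Q * Real.exp (∑ l : Fin N, -(((G l).card : ℝ) / (8 * g)))) :=
              mul_le_mul_of_nonneg_left h1 (by positivity)
          _ = Real.exp (∑ l : Fin N, -(((G l).card : ℝ) / (8 * g))) := by field_simp
          _ ≤ Real.exp (-(14 * J : ℝ)) := by
              apply Real.exp_le_exp.2
              rw [Finset.sum_neg_distrib]
              linarith
          _ = Real.exp (-1) ^ (14 * J) := by
              rw [← Real.exp_nat_mul]; congr 1; push_cast; ring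
          _ ≤ (1 / 2 : ℝ) ^ (14 * J) := by
              apply pow_le_pow_left₀ (Real.exp_pos _).le
              rw [Real.exp_neg, inv_eq_one_div]
              apply one_div_le_one_div_of_le (by norm_num)
              have := Real.add_one_le_exp (1 : ℝ)
              linarith
          _ ≤ (1 / 2 : ℝ) ^ (2 * J + 9) := by
              apply pow_le_pow_of_le_one (by norm_num) (by norm_num)
              omega
      have h3 : 0 ≤ 1 / Q * ∏ l : Fin N, ‖∑ y : Fin g × Fin (ρ + ρ), ee ((y.2 : ℕ) * (t / (((e (l, y.1) : E) : ℕ) : ℝ)))‖ := by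
        positivity
      calc _ ≤ 1 * (1 / 2 : ℝ) ^ (2 * J + 9) := mul_le_mul hch1 h2 h3 (by norm_num)
        _ ≤ ε h := by
            rw [hε]
            simp only
            have := Real.pi_pos
            have : 0 ≤ 2 * Real.pi * h * (1 / D) * Real.exp (-(β * (h : ℝ) ^ 2)) := by positivity
            linarith
  -- apply the kernel lemma
  have hδpos : 0 < η / (2 * M) := by positivity
  have hTδ : 1 ≤ (T : ℝ) * (η / (2 * M)) ^ 2 := by
    have h1 : η / 4 ≤ η / (2 * M) := by
      apply div_le_div_of_nonneg_left hηpos.le (by positivity)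
      linarith
    have h2 : (η / 4) ^ 2 ≤ (η / (2 * M)) ^ 2 := pow_le_pow_left₀ (by positivity) h1 2
    have h3 : (T : ℝ) * (η / 4) ^ 2 = 1 := by
      have e1 : (2 : ℝ) ^ (2 * J + 4) = ((2 : ℝ) ^ J) ^ 2 * 16 := by ring
      have e2 : (2 : ℝ) ^ J * (1 / 2 : ℝ) ^ J = 1 := by rw [← mul_pow]; norm_num
      rw [hTr, hη, e1]
      calc ((2 : ℝ) ^ J) ^ 2 * 16 * ((1 / 2 : ℝ) ^ J / 4) ^ 2 =
          ((2 : ℝ) ^ J * (1 / 2 : ℝ) ^ J) ^ 2 := by ring
        _ = 1 := by rw [e2]; norm_num
    calc (1 : ℝ) = (T : ℝ) * (η / 4) ^ 2 := h3.symm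
      _ ≤ _ := mul_le_mul_of_nonneg_left h2 (Nat.cast_nonneg T)
  obtain ⟨j, hj, hjx⟩ := kernel ((range n) ×ˢ (univ : Finset (Fin N → Fin g × Fin R)))
    (fun j => w' j.1 / Q) (fun j => (s j.1 + Z j.2 - x0) / M)
    (fun j _ => div_nonneg (hw'0 _) hQpos.le)
    (by
      rw [Finset.sum_product]
      simp only [Finset.sum_const, card_univ]
      rw [← Finset.smul_sum, ← Finset.sum_div, hw'1]
      rw [Fintype.card_fun, Fintype.card_prod, Fintype.card_fin, Fintype.card_fin, Fintype.card_fin,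
        nsmul_eq_mul]
      push_cast
      rw [hRr, ← hQ]
      field_simp)
    T (by rw [hT]; exact Nat.one_le_two_pow) ε hε0 hmain hεsum (η / (2 * M)) hδpos hTδ
  obtain ⟨i, ω⟩ := j
  rw [mem_product, mem_range] at hj
  simp only at hj hjx
  obtain ⟨hi, -⟩ := hj
  have hsi1 : s i < 1 := hnmin i hi
  have hsi0 : 0 ≤ s i := by
    rw [hs]; positivity
  set m : ℤ := round ((s i + Z ω - x0) / M) with hm
  have habs : |s i + Z ω - x0 - m * M| < η / 2 := by
    have h1 : s i + Z ω - x0 - m * M = M * ((s i + Z ω - x0) / M - m) := by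
      field_simp
    rw [h1, abs_mul, abs_of_pos hMpos]
    calc M * |(s i + Z ω - x0) / M - m| < M * (η / (2 * M)) := mul_lt_mul_of_pos_left hjx hMpos
      _ = η / 2 := by field_simp
  have hab := abs_lt.1 habs
  have hZω0 := hZ0 ω
  have hZωh := hZhalf ω
  have hm0 : m = 0 := by
    rcases lt_trichotomy m 0 with h | h | h
    · exfalso
      have h1 : (m : ℝ) ≤ -1 := by exact_mod_cast (by omega : m ≤ -1)
      have h2 : (m : ℝ) * M ≤ -M := by nlinarith
      rw [hx0] at hab
      linarith [hab.2]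
    · exact h
    · exfalso
      have h1 : (1 : ℝ) ≤ m := by exact_mod_cast (by omega : 1 ≤ m)
      have h2 : M ≤ (m : ℝ) * M := by nlinarith
      rw [hx0] at hab
      linarith [hab.1]
  rw [hm0] at hab
  simp only [Int.cast_zero, zero_mul, sub_zero] at hab
  obtain ⟨S, hSA, hSs⟩ := build (D := D) A E (fun a ha => (hE a ha).2.2) e i (by rw [← hR]; omega) ω
  refine ⟨S, hSA, ?_, ?_⟩
  · rw [hSs]
    have : s i + Z ω = ∑ l ∈ range i, (1 : ℝ) / (enum E (ρ + ρ) D l : ℝ) +
      ∑ l, (((ω l).2 : ℕ) : ℝ) * (1 / ((e (l, (ω l).1) : ℕ) : ℝ)) := rfl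
    rw [← this]
    rw [hx0] at hab
    linarith [hab.1]
  · rw [hSs]
    have : s i + Z ω = ∑ l ∈ range i, (1 : ℝ) / (enum E (ρ + ρ) D l : ℝ) +
      ∑ l, (((ω l).2 : ℕ) : ℝ) * (1 / ((e (l, (ω l).1) : ℕ) : ℝ)) := rfl
    rw [← this]
    rw [hx0] at hab
    linarith [hab.2]

end Pool.Agent.Helper307.UF
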