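import Mathlib
import Pool.Agent.Helper307.UF.Key

set_option autoImplicit false

namespace Pool.Agent.Helper307.UF

open Finset

/-- few large prime factors -/
lemma prime_count (m L i : ℕ) (hm0 : m ≠ 0) (hm : m < 2 ^ L) (P : Finset ℕ)
    (hP : ∀ p ∈ P, p.Prime ∧ p ∣ m ∧ 2 ^ i ≤ p) : P.card * i ≤ L := by
  have h1 : ∏ p ∈ P, p ∣ m :=
    Finset.prod_primes_dvd m (fun p hp => (hP p hp).1.prime) (fun p hp => (hP p hp).2.1)
  have h2 : ∏ p ∈ P, p ≤ m := Nat.le_of_dvd (Nat.pos_of_ne_zero hm0) h1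
  have h3 : (2 ^ i) ^ P.card ≤ ∏ p ∈ P, p := by
    rw [← Finset.prod_const]
    exact Finset.prod_le_prod' (fun p hp => (hP p hp).2.2)
  have h4 : 2 ^ (i * P.card) < 2 ^ L := by
    rw [pow_mul]; omega
  have h5 := (Nat.pow_lt_pow_iff_right (by norm_num : 1 < 2)).1 h4
  rw [mul_comm]; omega

/-- multiples of `a` in a window -/
lemma mult_count (a : ℕ) (ha : 0 < a) (t W : ℝ) (htW : W < t) (hW : 0 < W) :
    ∃ Q : Finset ℕ, (∀ m : ℕ, |t - m * a| < W → m ∈ Q) ∧ (∀ m ∈ Q, |t - m * a| < W) ∧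
      (Q.card : ℝ) ≤ 2 * W / a + 1 := by
  classical
  have har : (0 : ℝ) < a := by exact_mod_cast ha
  set x : ℝ := (t - W) / a with hx
  set y : ℝ := (t + W) / a with hy
  have hx0 : 0 ≤ x := by
    rw [hx]; apply div_nonneg _ har.le; linarith
  have hmem : ∀ m : ℕ, |t - m * a| < W → m ∈ Icc (⌊x⌋₊ + 1) (⌈y⌉₊ - 1) := by
    intro m hm
    rw [abs_lt] at hm
    have h1 : x < m := by
      rw [hx, div_lt_iff₀ har]; linarith [hm.2]
    have h2 : (m : ℝ) < y := by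
      rw [hy, lt_div_iff₀ har]; linarith [hm.1]
    rw [mem_Icc]
    constructor
    · exact Nat.succ_le_of_lt ((Nat.floor_lt hx0).2 h1)
    · have := Nat.lt_ceil.2 h2
      omega
  refine ⟨(Icc (⌊x⌋₊ + 1) (⌈y⌉₊ - 1)).filter (fun m : ℕ => |t - m * a| < W), ?_, ?_, ?_⟩
  · intro m hm
    exact mem_filter.2 ⟨hmem m hm, hm⟩
  · intro m hm
    exact (mem_filter.1 hm).2
  · have h1 : ((((Icc (⌊x⌋₊ + 1) (⌈y⌉₊ - 1)).filter (fun m : ℕ => |t - m * a| < W)).card : ℕ) : ℝ) ≤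
        ((Icc (⌊x⌋₊ + 1) (⌈y⌉₊ - 1)).card : ℝ) := by
      exact_mod_cast card_filter_le _ _
    refine h1.trans ?_
    rw [Nat.card_Icc]
    have hy0 : 0 < y := by
      rw [hy]; apply div_pos _ har; linarith
    have hc : (⌈y⌉₊ : ℝ) < y + 1 := Nat.ceil_lt_add_one hy0.le
    have hf : x < ⌊x⌋₊ + 1 := Nat.lt_floor_add_one x
    have hyx : y - x = 2 * W / a := by
      rw [hx, hy]; field_simp; ring
    by_cases hle : ⌊x⌋₊ + 1 ≤ ⌈y⌉₊ - 1 + 1
    · rw [Nat.cast_sub hle]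
      have h2 : ((⌈y⌉₊ - 1 + 1 : ℕ) : ℝ) ≤ ⌈y⌉₊ := by
        have : 0 < ⌈y⌉₊ := Nat.ceil_pos.2 hy0
        have : ⌈y⌉₊ - 1 + 1 = ⌈y⌉₊ := by omega
        rw [this]
      push_cast at h2 ⊢
      linarith
    · have : ⌈y⌉₊ - 1 + 1 - (⌊x⌋₊ + 1) = 0 := by omega
      rw [this]
      have : 0 ≤ 2 * W / a := by positivity
      push_cast
      linarith

/-- the counting bound for the bad elements of a class -/
lemma bad_count (J d W : ℕ) (hW : 0 < W) (hWJ : W ≤ 2 ^ (2 * J + 4)) (B : Finset ℕ) (S1 : Finset ℕ)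
    (hB : ∀ a ∈ B, 2 ^ d ≤ a ∧ a / a.minFac ∈ S1)
    (hS : ∀ u ∈ S1, 0 < u ∧ u ≤ W ∧ 1 ≤ d - Nat.clog 2 u)
    (t : ℝ) (ht1 : (W : ℝ) < t) (ht2 : t < 2 ^ (2 * J + 4))
    (hbad : ∀ a ∈ B, ∃ n : ℕ, |t - n * a| < (W : ℝ)) :
    (B.card : ℝ) ≤ 3 * W * (2 * J + 5) * ∑ u ∈ S1, 1 / ((u : ℝ) * ((d - Nat.clog 2 u : ℕ) : ℝ)) := by
  classical
  have hWr : (0 : ℝ) < W := by exact_mod_cast hW
  have hfib : B.card = ∑ u ∈ S1, (B.filter (fun a => a / a.minFac = u)).card :=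
    Finset.card_eq_sum_card_fiberwise (fun a ha => (hB a ha).2)
  rw [hfib]
  push_cast
  rw [Finset.mul_sum]
  refine Finset.sum_le_sum (fun u hu => ?_)
  obtain ⟨hu0, huW, hui⟩ := hS u hu
  have hur : (0 : ℝ) < u := by exact_mod_cast hu0
  have huWr : (u : ℝ) ≤ W := by exact_mod_cast huW
  set i : ℕ := d - Nat.clog 2 u with hi
  have hir : (1 : ℝ) ≤ i := by exact_mod_cast hui
  obtain ⟨Q, hQ1, hQ2, hQ3⟩ := mult_count u hu0 t W ht1 hWr
  -- bound of the fibre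
  have hsub : B.filter (fun a => a / a.minFac = u) ⊆
      Q.biUnion (fun m => ((m * u).primeFactors.filter (fun p => 2 ^ i ≤ p)).image (fun p => u * p)) := by
    intro a ha
    rw [mem_filter] at ha
    obtain ⟨haB, hau⟩ := ha
    obtain ⟨hda, _⟩ := hB a haB
    obtain ⟨n, hn⟩ := hbad a haB
    have hp : a.minFac ∣ a := Nat.minFac_dvd a
    have hapos : 0 < a := by
      have : 0 < 2 ^ d := by positivity
      omega
    have hane1 : a ≠ 1 := by
      intro h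
      rw [h] at hda
      have : d = 0 := by
        by_contra hd
        have : 2 ^ 1 ≤ 2 ^ d := Nat.pow_le_pow_right (by norm_num) (by omega)
        omega
      omega
    have hprime : a.minFac.Prime := Nat.minFac_prime hane1
    have haeq : a = u * a.minFac := by
      rw [← hau]; exact (Nat.div_mul_cancel hp).symm
    rw [mem_biUnion]
    refine ⟨n * a.minFac, ?_, ?_⟩
    · apply hQ1
      have : ((n * a.minFac : ℕ) : ℝ) * u = n * a := by
        conv_rhs => rw [haeq]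
        push_cast; ring
      rw [this]; exact hn
    · rw [mem_image]
      refine ⟨a.minFac, ?_, haeq.symm⟩
      have hn0 : n ≠ 0 := by
        intro h
        rw [h] at hn
        simp only [Nat.cast_zero, zero_mul, sub_zero] at hn
        rw [abs_of_pos (by linarith)] at hn
        linarith
      rw [mem_filter, Nat.mem_primeFactors]
      refine ⟨⟨hprime, ?_, ?_⟩, ?_⟩
      · exact Dvd.dvd.mul_right (Dvd.intro_left n rfl) u
      · have := hprime.pos
        positivity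
      · -- 2^i ≤ minFac
        have h1 : u ≤ 2 ^ Nat.clog 2 u := Nat.le_pow_clog (by norm_num) u
        have h2 : 2 ^ d = 2 ^ Nat.clog 2 u * 2 ^ i := by
          rw [← pow_add]; congr 1; omega
        have h3 : 2 ^ Nat.clog 2 u * 2 ^ i ≤ 2 ^ Nat.clog 2 u * a.minFac := by
          calc 2 ^ Nat.clog 2 u * 2 ^ i = 2 ^ d := h2.symm
            _ ≤ a := hda
            _ = u * a.minFac := haeq
            _ ≤ 2 ^ Nat.clog 2 u * a.minFac := Nat.mul_le_mul_right _ h1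
        exact Nat.le_of_mul_le_mul_left h3 (by positivity)
  have hcard := card_le_card hsub
  have h1 : ∀ m ∈ Q, ((((m * u).primeFactors.filter (fun p => 2 ^ i ≤ p)).image (fun p => u * p)).card : ℝ) ≤
      (2 * J + 5) / i := by
    intro m hm
    have hmQ := hQ2 m hm
    rw [abs_lt] at hmQ
    have h2 : m * u < 2 ^ (2 * J + 5) := by
      have h3 : (m : ℝ) * u < 2 ^ (2 * J + 5) := by
        have h4 : (W : ℝ) ≤ 2 ^ (2 * J + 4) := by exact_mod_cast hWJ
        have h5 : (2 : ℝ) ^ (2 * J + 5) = 2 ^ (2 * J + 4) + 2 ^ (2 * J + 4) := by ring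
        rw [h5]; linarith [hmQ.1]
      exact_mod_cast h3
    have h3 : m * u ≠ 0 := by
      intro h
      have h4 : (m : ℝ) * u = 0 := by exact_mod_cast h
      rw [h4] at hmQ
      linarith [hmQ.2]
    have h4 := prime_count (m * u) (2 * J + 5) i h3 h2 ((m * u).primeFactors.filter (fun p => 2 ^ i ≤ p))
      (fun p hp => by
        rw [mem_filter, Nat.mem_primeFactors] at hp
        exact ⟨hp.1.1, hp.1.2.1, hp.2⟩)
    rw [le_div_iff₀ (by linarith)]
    have h5 : (((m * u).primeFactors.filter (fun p => 2 ^ i ≤ p)).image (fun p => u * p)).card ≤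
        ((m * u).primeFactors.filter (fun p => 2 ^ i ≤ p)).card := card_image_le
    have h6 : (((m * u).primeFactors.filter (fun p => 2 ^ i ≤ p)).image (fun p => u * p)).card * i ≤ 2 * J + 5 :=
      (Nat.mul_le_mul_right i h5).trans h4
    exact_mod_cast h6
  have h2 : ((B.filter (fun a => a / a.minFac = u)).card : ℝ) ≤ ∑ m ∈ Q, (2 * J + 5 : ℝ) / i := by
    calc ((B.filter (fun a => a / a.minFac = u)).card : ℝ)
        ≤ ((Q.biUnion (fun m => ((m * u).primeFactors.filter (fun p => 2 ^ i ≤ p)).image (fun p => u * p))).card : ℝ) := by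
          exact_mod_cast hcard
      _ ≤ ∑ m ∈ Q, ((((m * u).primeFactors.filter (fun p => 2 ^ i ≤ p)).image (fun p => u * p)).card : ℝ) := by
          exact_mod_cast card_biUnion_le
      _ ≤ _ := Finset.sum_le_sum h1
  refine h2.trans ?_
  rw [Finset.sum_const, nsmul_eq_mul]
  have h3 : (2 * W / u + 1 : ℝ) ≤ 3 * W / u := by
    rw [div_add_one hur.ne', div_le_div_iff_of_pos_right hur]
    linarith
  have h4 : (0 : ℝ) ≤ (2 * J + 5 : ℝ) / i := by positivity
  calc (Q.card : ℝ) * ((2 * J + 5 : ℝ) / i) ≤ (3 * W / u) * ((2 * J + 5 : ℝ) / i) :=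
        mul_le_mul_of_nonneg_right (hQ3.trans h3) h4
    _ = 3 * W * (2 * J + 5) * (1 / ((u : ℝ) * (i : ℝ))) := by
        field_simp

/-- logarithmic density of rough numbers -/
lemma rough_sum (i J : ℕ) (hi : 1 ≤ i) (hiJ : i ≤ J) (R : Finset ℕ)
    (hR : ∀ a ∈ R, 1 ≤ a ∧ a ≤ 2 ^ J ∧ ∀ p, p.Prime → p ∣ a → 2 ^ i ≤ p) :
    ∑ a ∈ R, (1 : ℝ) / (a : ℝ) ≤ 4 * J / i := by
  classical
  have hprod : (∑ a ∈ R, (1 : ℝ) / (a : ℝ)) * (∑ m ∈ (Icc 1 (2 ^ i - 1) : Finset ℕ), (1 : ℝ) / (m : ℝ)) ≤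
      ∑ n ∈ (Icc 1 (2 ^ (J + i)) : Finset ℕ), (1 : ℝ) / (n : ℝ) := by
    rw [Finset.sum_mul_sum, ← Finset.sum_product']
    have h1 : ∑ x ∈ R ×ˢ (Icc 1 (2 ^ i - 1) : Finset ℕ), (1 : ℝ) / (x.1 : ℝ) * (1 / (x.2 : ℝ)) =
        ∑ n ∈ (R ×ˢ (Icc 1 (2 ^ i - 1) : Finset ℕ)).image (fun x : ℕ × ℕ => x.1 * x.2), (1 : ℝ) / ((n : ℕ) : ℝ) := by
      rw [Finset.sum_image]
      · refine Finset.sum_congr rfl (fun x _ => ?_)
        push_cast
        rw [one_div_mul_one_div]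
      · rintro ⟨a, m⟩ hx ⟨a', m'⟩ hx' h
        simp only at h
        rw [Finset.mem_coe, mem_product, mem_Icc] at hx hx'
        simp only at hx hx'
        have hcop : ∀ u v : ℕ, u ∈ R → 1 ≤ v → v ≤ 2 ^ i - 1 → Nat.Coprime u v := by
          intro u v hu hv1 hv2
          rw [Nat.coprime_iff_gcd_eq_one] 
          by_contra hne
          obtain ⟨p, hp, hpd⟩ := Nat.exists_prime_and_dvd hne
          have h1 := (hR u hu).2.2 p hp (hpd.trans (Nat.gcd_dvd_left u v))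
          have h2 : p ≤ v := Nat.le_of_dvd (by omega) (hpd.trans (Nat.gcd_dvd_right u v))
          have : 0 < 2 ^ i := by positivity
          omega
        have h1 : a ∣ a' := by
          have : a ∣ a' * m' := ⟨m, h.symm⟩
          exact (hcop a m' hx.1 hx'.2.1 hx'.2.2).dvd_of_dvd_mul_right this
        have h2 : a' ∣ a := by
          have : a' ∣ a * m := ⟨m', h⟩
          exact (hcop a' m hx'.1 hx.2.1 hx.2.2).dvd_of_dvd_mul_right this
        have h3 : a = a' := Nat.dvd_antisymm h1 h2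
        have ha : 0 < a := (hR a hx.1).1
        rw [← h3] at h
        have h4 : m = m' := Nat.eq_of_mul_eq_mul_left ha h
        rw [h3, h4]
    rw [h1]
    apply Finset.sum_le_sum_of_subset_of_nonneg
    · intro n hn
      rw [mem_image] at hn
      obtain ⟨⟨a, m⟩, hx, rfl⟩ := hn
      rw [mem_product, mem_Icc] at hx
      simp only at hx
      obtain ⟨h1, h2, _⟩ := hR a hx.1
      rw [mem_Icc]
      constructor
      · exact Nat.mul_pos h1 hx.2.1
      · rw [pow_add]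
        apply Nat.mul_le_mul h2
        omega
    · intro n _ _
      positivity
  have hlog2 : (0.6931471803 : ℝ) < Real.log 2 := Real.log_two_gt_d9
  have hlog2' : Real.log 2 < 0.6931471808 := Real.log_two_lt_d9
  have hlow : (i : ℝ) * Real.log 2 ≤ ∑ m ∈ (Icc 1 (2 ^ i - 1) : Finset ℕ), (1 : ℝ) / (m : ℝ) := by
    have h1 := log_add_one_le_harmonic (2 ^ i - 1)
    rw [harmonic_eq_sum_Icc] at h1
    have h2 : (2 ^ i - 1 + 1 : ℕ) = 2 ^ i := by
      have : 0 < 2 ^ i := by positivity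
      omega
    have h3 : Real.log ((2 ^ i - 1 : ℕ) + 1 : ℝ) = i * Real.log 2 := by
      have : (((2 ^ i - 1 : ℕ) : ℝ) + 1) = ((2 ^ i - 1 + 1 : ℕ) : ℝ) := by push_cast; ring
      rw [this, h2]
      push_cast
      rw [Real.log_pow]
    have h4 : ((∑ m ∈ (Icc 1 (2 ^ i - 1) : Finset ℕ), ((m : ℚ))⁻¹ : ℚ) : ℝ) = ∑ m ∈ (Icc 1 (2 ^ i - 1) : Finset ℕ), (1 : ℝ) / (m : ℝ) := by
      push_cast
      exact Finset.sum_congr rfl (fun m _ => by rw [one_div])
    rw [h4] at h1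
    push_cast at h1 h3
    linarith
  have hup : ∑ n ∈ (Icc 1 (2 ^ (J + i)) : Finset ℕ), (1 : ℝ) / (n : ℝ) ≤ 1 + (J + i) * Real.log 2 := by
    have h1 := harmonic_le_one_add_log (2 ^ (J + i))
    rw [harmonic_eq_sum_Icc] at h1
    have h4 : ((∑ m ∈ (Icc 1 (2 ^ (J + i)) : Finset ℕ), ((m : ℚ))⁻¹ : ℚ) : ℝ) = ∑ m ∈ (Icc 1 (2 ^ (J + i)) : Finset ℕ), (1 : ℝ) / (m : ℝ) := by
      push_cast
      exact Finset.sum_congr rfl (fun m _ => by rw [one_div])
    rw [h4] at h1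
    refine h1.trans (le_of_eq ?_)
    push_cast
    rw [Real.log_pow]
    push_cast
    ring
  have hiR : (1 : ℝ) ≤ i := by exact_mod_cast hi
  have hJR : (i : ℝ) ≤ J := by exact_mod_cast hiJ
  have hnn : 0 ≤ ∑ a ∈ R, (1 : ℝ) / (a : ℝ) := Finset.sum_nonneg (fun a _ => by positivity)
  have h5 : (∑ a ∈ R, (1 : ℝ) / (a : ℝ)) * (i * Real.log 2) ≤ 1 + (J + i) * Real.log 2 :=
    (mul_le_mul_of_nonneg_left hlow hnn).trans (hprod.trans hup)
  rw [le_div_iff₀ (by linarith)]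
  have h6 : (∑ a ∈ R, (1 : ℝ) / (a : ℝ)) * i * Real.log 2 ≤ (4 * J) * Real.log 2 := by
    have h7 : (1 : ℝ) + (J + i) * Real.log 2 ≤ (4 * J) * Real.log 2 := by
      nlinarith
    linarith
  exact le_of_mul_le_mul_right h6 (by linarith)

end Pool.Agent.Helper307.UF
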