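import Mathlib
import Pool.Agent.Helper307.UF.Count

set_option autoImplicit false

namespace Pool.Agent.Helper307.UF

open Finset

lemma class_bound (J N ρ d : ℕ) (A : Multiset ℕ) (E : Finset ℕ) (hJ : 1 ≤ J) (hρ : 2048 ≤ ρ)
    (hN : 256 * J ≤ N) (hD : 4 * N * ρ = 2 ^ d)
    (hE : ∀ a ∈ E, 2 ^ d ≤ a ∧ a < 2 ^ (d + 1) ∧ 4 * ρ ≤ A.count a)
    (hNJ : 2 * N ≤ 2 ^ (2 * J + 4)) (S1 : Finset ℕ) (hES : ∀ a ∈ E, a / a.minFac ∈ S1)
    (hS : ∀ u ∈ S1, 0 < u ∧ u ≤ 2 * N ∧ 1 ≤ d - Nat.clog 2 u)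
    (hno : ¬ ∃ S : Multiset ℕ, S ≤ A ∧ 1 - (1 / 2 : ℝ) ^ J < sg S ∧ sg S ≤ 1) :
    (E.card : ℝ) ≤ 8 * N + 12 * N * (2 * J + 5) *
      ∑ u ∈ S1, 1 / ((u : ℝ) * ((d - Nat.clog 2 u : ℕ) : ℝ)) := by
  have hsum0 : 0 ≤ ∑ u ∈ S1, 1 / ((u : ℝ) * ((d - Nat.clog 2 u : ℕ) : ℝ)) :=
    Finset.sum_nonneg (fun u _ => by positivity)
  by_cases hcard : 8 * N ≤ E.card
  · have h1 : ¬ ∀ t : ℝ, (2 * N : ℝ) < t → t < 2 ^ (2 * J + 4) → ∀ B ⊆ E,
        (∀ a ∈ B, ∃ n : ℕ, |t - n * a| < (2 * N : ℝ)) → 2 * B.card ≤ E.card := by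
      intro h
      apply hno
      refine key J N ρ A E hJ hρ hN ?_ hcard h
      intro a ha
      obtain ⟨h2, h3, h4⟩ := hE a ha
      refine ⟨by omega, ?_, h4⟩
      have : 8 * N * ρ = 2 ^ (d + 1) := by
        rw [pow_succ, ← hD]; ring
      omega
    push Not at h1
    obtain ⟨t, ht1, ht2, B, hBE, hB, hlt⟩ := h1
    have hNpos : 0 < N := by omega
    have h2 := bad_count J d (2 * N) (by omega) hNJ B S1
      (fun a ha => ⟨(hE a (hBE ha)).1, hES a (hBE ha)⟩) hS t (by push_cast; exact ht1) ht2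
      (fun a ha => by
        obtain ⟨n, hn⟩ := hB a ha
        exact ⟨n, by push_cast; exact hn⟩)
    push_cast at h2
    have h3 : (E.card : ℝ) < 2 * B.card := by exact_mod_cast hlt
    have h4 : (0 : ℝ) ≤ 8 * N := by positivity
    nlinarith
  · push Not at hcard
    have h1 : (E.card : ℝ) ≤ 8 * N := by exact_mod_cast hcard.le
    have h2 : 0 ≤ 12 * (N : ℝ) * (2 * J + 5) *
      ∑ u ∈ S1, 1 / ((u : ℝ) * ((d - Nat.clog 2 u : ℕ) : ℝ)) := by positivity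
    linarith

lemma harm_le (J : ℕ) : ∑ i ∈ Ico 1 J, (1 : ℝ) / (i : ℝ) ≤ 1 + Real.log J := by
  have h1 := harmonic_le_one_add_log J
  rw [harmonic_eq_sum_Icc] at h1
  have h4 : ((∑ m ∈ Icc 1 J, ((m : ℚ))⁻¹ : ℚ) : ℝ) = ∑ m ∈ Icc 1 J, (1 : ℝ) / (m : ℝ) := by
    push_cast
    exact Finset.sum_congr rfl (fun m _ => by rw [one_div])
  rw [h4] at h1
  refine le_trans ?_ h1
  apply Finset.sum_le_sum_of_subset_of_nonneg
  · intro i hi
    rw [mem_Ico] at hi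
    rw [mem_Icc]
    omega
  · intro i _ _
    positivity

/-- the double sum over the scales -/
lemma double_sum (J : ℕ) (hJ : 1 ≤ J) (S1 : ℕ → ℕ → Finset ℕ)
    (hS : ∀ d l, d < J → l < J → ∀ u ∈ S1 d l, 1 ≤ u ∧ u ≤ 2 ^ J ∧ 1 ≤ d - Nat.clog 2 u ∧
      1 ≤ l ∧ l ≤ d - Nat.clog 2 u + 1 ∧
      ∀ p, p.Prime → p ∣ u → 2 ^ (d - Nat.clog 2 u) ≤ p) :
    ∑ d ∈ range J, ∑ l ∈ range J, ∑ u ∈ S1 d l, 1 / ((u : ℝ) * ((d - Nat.clog 2 u : ℕ) : ℝ)) ≤
      8 * J * (1 + Real.log J) := by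
  classical
  set Ro : ℕ → ℕ → Prop := fun i u => ∀ p, p.Prime → p ∣ u → 2 ^ i ≤ p with hRo
  -- step 1 : sum over l
  have h1 : ∀ d ∈ range J, ∑ l ∈ range J, ∑ u ∈ S1 d l, 1 / ((u : ℝ) * ((d - Nat.clog 2 u : ℕ) : ℝ)) ≤
      ∑ u ∈ (Icc 1 (2 ^ J)).filter (fun u => 1 ≤ d - Nat.clog 2 u ∧ Ro (d - Nat.clog 2 u) u),
        2 / (u : ℝ) := by
    intro d hd
    rw [mem_range] at hd
    calc ∑ l ∈ range J, ∑ u ∈ S1 d l, 1 / ((u : ℝ) * ((d - Nat.clog 2 u : ℕ) : ℝ))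
        ≤ ∑ l ∈ range J, ∑ u ∈ (Icc 1 (2 ^ J)).filter (fun u => 1 ≤ d - Nat.clog 2 u ∧ Ro (d - Nat.clog 2 u) u),
            if (1 ≤ l ∧ l ≤ d - Nat.clog 2 u + 1) then 1 / ((u : ℝ) * ((d - Nat.clog 2 u : ℕ) : ℝ)) else 0 := by
          refine Finset.sum_le_sum (fun l hl => ?_)
          rw [mem_range] at hl
          rw [← Finset.sum_filter]
          apply Finset.sum_le_sum_of_subset_of_nonneg
          · intro u hu
            obtain ⟨h1, h2, h3, h4, h5, h6⟩ := hS d l hd hl u hu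
            rw [mem_filter, mem_filter, mem_Icc]
            exact ⟨⟨⟨h1, h2⟩, h3, h6⟩, h4, h5⟩
          · intro u _ _
            positivity
      _ = ∑ u ∈ (Icc 1 (2 ^ J)).filter (fun u => 1 ≤ d - Nat.clog 2 u ∧ Ro (d - Nat.clog 2 u) u),
            ∑ l ∈ range J, if (1 ≤ l ∧ l ≤ d - Nat.clog 2 u + 1) then 1 / ((u : ℝ) * ((d - Nat.clog 2 u : ℕ) : ℝ)) else 0 :=
          Finset.sum_comm
      _ ≤ _ := by
          refine Finset.sum_le_sum (fun u hu => ?_)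
          rw [mem_filter, mem_Icc] at hu
          obtain ⟨⟨hu1, _⟩, hi, _⟩ := hu
          set i := d - Nat.clog 2 u
          rw [← Finset.sum_filter, Finset.sum_const, nsmul_eq_mul]
          have hc : ((range J).filter (fun l => 1 ≤ l ∧ l ≤ i + 1)).card ≤ i + 1 := by
            have : (range J).filter (fun l => 1 ≤ l ∧ l ≤ i + 1) ⊆ Icc 1 (i + 1) := by
              intro l hl
              rw [mem_filter] at hl
              rw [mem_Icc]; exact hl.2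
            refine (card_le_card this).trans ?_
            simp
          have hc' : (((range J).filter (fun l => 1 ≤ l ∧ l ≤ i + 1)).card : ℝ) ≤ i + 1 := by
            exact_mod_cast hc
          have hur : (1 : ℝ) ≤ u := by exact_mod_cast hu1
          have hir : (1 : ℝ) ≤ i := by exact_mod_cast hi
          rw [mul_one_div, div_le_div_iff₀ (by positivity) (by positivity)]
          nlinarith
  -- step 2 : sum over d
  have h2 : ∑ d ∈ range J, ∑ u ∈ (Icc 1 (2 ^ J)).filter (fun u => 1 ≤ d - Nat.clog 2 u ∧ Ro (d - Nat.clog 2 u) u),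
        2 / (u : ℝ) ≤ ∑ i ∈ Ico 1 J, ∑ u ∈ (Icc 1 (2 ^ J)).filter (fun u => Ro i u), 2 / (u : ℝ) := by
    have e1 : ∀ d, ∑ u ∈ (Icc 1 (2 ^ J)).filter (fun u => 1 ≤ d - Nat.clog 2 u ∧ Ro (d - Nat.clog 2 u) u),
        2 / (u : ℝ) = ∑ u ∈ Icc 1 (2 ^ J), if (1 ≤ d - Nat.clog 2 u ∧ Ro (d - Nat.clog 2 u) u) then 2 / (u : ℝ) else 0 :=
      fun d => Finset.sum_filter _ _
    have e2 : ∀ i, ∑ u ∈ (Icc 1 (2 ^ J)).filter (fun u => Ro i u), 2 / (u : ℝ) =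
        ∑ u ∈ Icc 1 (2 ^ J), if Ro i u then 2 / (u : ℝ) else 0 := fun i => Finset.sum_filter _ _
    rw [Finset.sum_congr rfl (fun d _ => e1 d), Finset.sum_congr rfl (fun i _ => e2 i),
      Finset.sum_comm, Finset.sum_comm (s := Ico 1 J)]
    refine Finset.sum_le_sum (fun u hu => ?_)
    rw [← Finset.sum_filter, ← Finset.sum_filter]
    rw [Finset.sum_const, Finset.sum_const, nsmul_eq_mul, nsmul_eq_mul]
    apply mul_le_mul_of_nonneg_right _ (by positivity)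
    have : ((range J).filter (fun d => 1 ≤ d - Nat.clog 2 u ∧ Ro (d - Nat.clog 2 u) u)).card ≤
        ((Ico 1 J).filter (fun i => Ro i u)).card := by
      apply Finset.card_le_card_of_injOn (fun d => d - Nat.clog 2 u)
      · intro d hd
        rw [Finset.mem_coe, mem_filter, mem_range] at hd
        rw [Finset.mem_coe, mem_filter, mem_Ico]
        refine ⟨⟨hd.2.1, ?_⟩, hd.2.2⟩
        show d - Nat.clog 2 u < J
        omega
      · intro d hd d' hd' h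
        rw [Finset.mem_coe, mem_filter, mem_range] at hd hd'
        simp only at h
        omega
    exact_mod_cast this
  -- step 3 : rough numbers
  have h3 : ∀ i ∈ Ico 1 J, ∑ u ∈ (Icc 1 (2 ^ J)).filter (fun u => Ro i u), 2 / (u : ℝ) ≤ 8 * J * (1 / i) := by
    intro i hi
    rw [mem_Ico] at hi
    have h4 := rough_sum i J hi.1 hi.2.le ((Icc 1 (2 ^ J)).filter (fun u => Ro i u)) (by
      intro a ha
      rw [mem_filter, mem_Icc] at ha
      exact ⟨ha.1.1, ha.1.2, ha.2⟩)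
    have h5 : ∑ u ∈ (Icc 1 (2 ^ J)).filter (fun u => Ro i u), 2 / (u : ℝ) =
        2 * ∑ u ∈ (Icc 1 (2 ^ J)).filter (fun u => Ro i u), 1 / (u : ℝ) := by
      rw [Finset.mul_sum]
      exact Finset.sum_congr rfl (fun u _ => by ring)
    rw [h5]
    calc 2 * ∑ u ∈ (Icc 1 (2 ^ J)).filter (fun u => Ro i u), 1 / (u : ℝ) ≤ 2 * (4 * J / i) := by
          linarith
      _ = 8 * J * (1 / i) := by ring
  calc _ ≤ ∑ d ∈ range J, ∑ u ∈ (Icc 1 (2 ^ J)).filter (fun u => 1 ≤ d - Nat.clog 2 u ∧ Ro (d - Nat.clog 2 u) u),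
        2 / (u : ℝ) := Finset.sum_le_sum h1
    _ ≤ _ := h2
    _ ≤ ∑ i ∈ Ico 1 J, 8 * J * (1 / (i : ℝ)) := Finset.sum_le_sum h3
    _ = 8 * J * ∑ i ∈ Ico 1 J, (1 / (i : ℝ)) := by rw [Finset.mul_sum]
    _ ≤ _ := by
        apply mul_le_mul_of_nonneg_left (harm_le J) (by positivity)

end Pool.Agent.Helper307.UF
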