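import Mathlib
import Pool.Agent.Helper307.UF.Sums

set_option autoImplicit false

namespace Pool.Agent.Helper307.UF

open Finset

theorem mass_bound (J : ℕ) (hJ : 1 ≤ J) (A : Multiset ℕ)
    (hred : ∀ a ∈ A, 2 ≤ a ∧ A.count a < a.minFac)
    (hno : ¬ ∃ S : Multiset ℕ, S ≤ A ∧ 1 - (1 / 2 : ℝ) ^ J < sg S ∧ sg S ≤ 1) :
    ∑ a ∈ A.toFinset.filter (fun a => a < 2 ^ J), (A.count a : ℝ) * (1 / (a : ℝ)) ≤
      2 ^ 28 * (J : ℝ) ^ 2 * (1 + Real.log J) := by
  classical
  have hJr : (1 : ℝ) ≤ J := by exact_mod_cast hJ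
  have hlog0 : 0 ≤ Real.log J := Real.log_nonneg hJr
  obtain ⟨κ, hκ⟩ : ∃ κ : ℕ, κ = Nat.clog 2 J + 12 := ⟨_, rfl⟩
  have hκJ : 4096 * J ≤ 2 ^ κ := by
    rw [hκ, pow_add]
    have := Nat.le_pow_clog (by norm_num : 1 < 2) J
    omega
  have hκJ2 : 2 ^ κ ≤ 8192 * J := by
    rw [hκ, pow_add]
    have h1 : 2 ^ Nat.clog 2 J ≤ 2 * J := by
      by_cases h : J ≤ 1
      · have : J = 1 := by omega
        rw [this]; simp
      · push Not at h
        have h2 := Nat.pow_pred_clog_lt_self (by norm_num : 1 < 2) h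
        have h3 : 0 < Nat.clog 2 J := Nat.clog_pos (by norm_num) (by omega)
        have h4 : 2 ^ Nat.clog 2 J = 2 * 2 ^ (Nat.clog 2 J).pred := by
          rw [← pow_succ']
          congr 1
          have := Nat.succ_pred_eq_of_pos h3
          omega
        omega
    omega
  have hκ12 : 12 ≤ κ := by omega
  have hκr : (2 : ℝ) ^ κ ≤ 8192 * J := by exact_mod_cast hκJ2
  obtain ⟨F, hF⟩ : ∃ F : Finset ℕ, F = A.toFinset.filter (fun a => a < 2 ^ J) := ⟨_, rfl⟩
  rw [← hF]
  have hFm : ∀ a ∈ F, a ∈ A ∧ a < 2 ^ J := by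
    intro a ha
    rw [hF, mem_filter, Multiset.mem_toFinset] at ha
    exact ha
  set f : ℕ → ℝ := fun a => (A.count a : ℝ) * (1 / (a : ℝ)) with hf
  have hf0 : ∀ a, 0 ≤ f a := fun a => by rw [hf]; positivity
  have hcnt : ∀ a ∈ F, A.count a < a := by
    intro a ha
    have h1 := hred a (hFm a ha).1
    have h2 : a.minFac ≤ a := Nat.minFac_le (by omega)
    omega
  have hf1 : ∀ a ∈ F, f a ≤ 1 := by
    intro a ha
    rw [hf]
    simp only
    have h1 := hcnt a ha
    have h2 : (A.count a : ℝ) ≤ a := by exact_mod_cast h1.le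
    have h3 : (0 : ℝ) < a := by
      have : 0 < a := by omega
      exact_mod_cast this
    rw [mul_one_div, div_le_one h3]
    exact h2
  set c1 : ℕ → Prop := fun a => a < 2 ^ (2 * κ + 1) with hc1
  set c2 : ℕ → Prop := fun a => A.count a < 2 ^ 13 with hc2
  set c3 : ℕ → Prop := fun a => ¬ c1 a ∧ 2 ^ (Nat.log 2 a - κ) ≤ A.count a with hc3
  set c4 : ℕ → Prop := fun a => ¬ c1 a ∧ ¬ c2 a ∧ A.count a < 2 ^ (Nat.log 2 a - κ) with hc4
  have hsplit : ∑ a ∈ F, f a ≤ ∑ a ∈ F.filter c1, f a + ∑ a ∈ F.filter c2, f a +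
      ∑ a ∈ F.filter c3, f a + ∑ a ∈ F.filter c4, f a := by
    rw [Finset.sum_filter, Finset.sum_filter, Finset.sum_filter, Finset.sum_filter,
      ← Finset.sum_add_distrib, ← Finset.sum_add_distrib, ← Finset.sum_add_distrib]
    refine Finset.sum_le_sum (fun a _ => ?_)
    have h0 := hf0 a
    have i1 : 0 ≤ if c1 a then f a else 0 := by split_ifs <;> linarith
    have i2 : 0 ≤ if c2 a then f a else 0 := by split_ifs <;> linarith
    have i3 : 0 ≤ if c3 a then f a else 0 := by split_ifs <;> linarith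
    have i4 : 0 ≤ if c4 a then f a else 0 := by split_ifs <;> linarith
    by_cases h1 : c1 a
    · have : (if c1 a then f a else 0) = f a := if_pos h1
      linarith
    · by_cases h2 : c2 a
      · have : (if c2 a then f a else 0) = f a := if_pos h2
        linarith
      · by_cases h3 : 2 ^ (Nat.log 2 a - κ) ≤ A.count a
        · have : (if c3 a then f a else 0) = f a := if_pos ⟨h1, h3⟩
          linarith
        · have : (if c4 a then f a else 0) = f a := if_pos ⟨h1, h2, not_le.1 h3⟩
          linarith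
  -- part 1
  have p1 : ∑ a ∈ F.filter c1, f a ≤ 2 ^ 27 * (J : ℝ) ^ 2 := by
    calc ∑ a ∈ F.filter c1, f a ≤ ∑ a ∈ F.filter c1, (1 : ℝ) :=
          Finset.sum_le_sum (fun a ha => hf1 a (mem_filter.1 ha).1)
      _ = ((F.filter c1).card : ℝ) := by simp
      _ ≤ ((range (2 ^ (2 * κ + 1))).card : ℝ) := by
          have : F.filter c1 ⊆ range (2 ^ (2 * κ + 1)) := by
            intro a ha
            rw [mem_range]
            exact (mem_filter.1 ha).2
          exact_mod_cast card_le_card this
      _ = 2 * (2 ^ κ) ^ 2 := by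
          rw [card_range]; push_cast; ring
      _ ≤ 2 * (8192 * (J : ℝ)) ^ 2 := by
          have := pow_le_pow_left₀ (by positivity) hκr 2
          linarith
      _ = 2 ^ 27 * (J : ℝ) ^ 2 := by ring
  -- part 2
  have p2 : ∑ a ∈ F.filter c2, f a ≤ 2 ^ 14 * (J : ℝ) ^ 2 := by
    have h1 : ∀ a ∈ F.filter c2, f a ≤ 2 ^ 13 * (1 / (a : ℝ)) := by
      intro a ha
      have h2 : A.count a < 2 ^ 13 := (mem_filter.1 ha).2
      have h3 : (A.count a : ℝ) ≤ 2 ^ 13 := by exact_mod_cast h2.le
      rw [hf]
      exact mul_le_mul_of_nonneg_right h3 (by positivity)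
    have h2 : F.filter c2 ⊆ (Ico 1 (2 ^ J) : Finset ℕ) := by
      intro a ha
      have h3 := hFm a (mem_filter.1 ha).1
      have h4 := (hred a h3.1).1
      rw [mem_Ico]
      omega
    have h3 : ∑ a ∈ (Ico 1 (2 ^ J) : Finset ℕ), (1 : ℝ) / (a : ℝ) ≤ 1 + J := by
      refine (harm_le (2 ^ J)).trans ?_
      push_cast
      rw [Real.log_pow]
      have : Real.log 2 < 1 := by linarith [Real.log_two_lt_d9]
      nlinarith
    calc ∑ a ∈ F.filter c2, f a ≤ ∑ a ∈ F.filter c2, 2 ^ 13 * (1 / (a : ℝ)) := Finset.sum_le_sum h1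
      _ ≤ ∑ a ∈ (Ico 1 (2 ^ J) : Finset ℕ), 2 ^ 13 * (1 / (a : ℝ)) := by
          apply Finset.sum_le_sum_of_subset_of_nonneg h2
          intro a _ _
          positivity
      _ = 2 ^ 13 * ∑ a ∈ (Ico 1 (2 ^ J) : Finset ℕ), 1 / (a : ℝ) := by rw [Finset.mul_sum]
      _ ≤ 2 ^ 13 * (1 + J) := by linarith
      _ ≤ 2 ^ 14 * (J : ℝ) ^ 2 := by nlinarith
  -- part 3
  have p3 : ∑ a ∈ F.filter c3, f a ≤ 2 ^ 20 * (J : ℝ) ^ 2 * (1 + Real.log J) := by
    have hmap : ∀ a ∈ F.filter c3, Nat.log 2 a ∈ range J := by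
      intro a ha
      have h1 := hFm a (mem_filter.1 ha).1
      rw [mem_range]
      have h2 := (hred a h1.1).1
      exact Nat.log_lt_of_lt_pow (by omega) h1.2
    rw [← Finset.sum_fiberwise_of_maps_to hmap]
    have hfib : ∀ d ∈ range J, ∑ a ∈ (F.filter c3).filter (fun a => Nat.log 2 a = d), f a ≤
        2 ^ 16 * J + 688128 * J ^ 2 * (if 1 ≤ d then (1 : ℝ) / (d : ℝ) else 0) := by
      intro d hd
      rw [mem_range] at hd
      set E := (F.filter c3).filter (fun a => Nat.log 2 a = d) with hE
      have hrhs : (0 : ℝ) ≤ 2 ^ 16 * J + 688128 * J ^ 2 * (if 1 ≤ d then (1 : ℝ) / (d : ℝ) else 0) := by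
        have : (0 : ℝ) ≤ (if 1 ≤ d then (1 : ℝ) / (d : ℝ) else 0) := by
          split_ifs <;> positivity
        positivity
      have hEm : ∀ a ∈ E, a ∈ F ∧ ¬ c1 a ∧ 2 ^ (d - κ) ≤ A.count a ∧ 2 ^ d ≤ a ∧ a < 2 ^ (d + 1) := by
        intro a ha
        rw [hE, mem_filter, mem_filter] at ha
        obtain ⟨⟨h1, h2, h3⟩, h4⟩ := ha
        have h5 := (hred a (hFm a h1).1).1
        refine ⟨h1, h2, ?_, ?_, ?_⟩
        · rw [← h4]; exact h3
        · rw [← h4]; exact Nat.pow_log_le_self 2 (by omega)
        · rw [← h4]; exact Nat.lt_pow_succ_log_self (by norm_num) a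
      by_cases hne : E.Nonempty
      · obtain ⟨a0, ha0⟩ := hne
        obtain ⟨_, h2, _, _, h5⟩ := hEm a0 ha0
        have hd1 : 2 * κ + 1 ≤ d := by
          have h6 : 2 ^ (2 * κ + 1) < 2 ^ (d + 1) := by
            rw [hc1] at h2
            simp only [not_lt] at h2
            omega
          have := (Nat.pow_lt_pow_iff_right (by norm_num : 1 < 2)).1 h6
          omega
        have hcb := class_bound J (2 ^ κ) (2 ^ (d - κ - 2)) d A E hJ
          (by
            calc 2048 = 2 ^ 11 := by norm_num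
              _ ≤ 2 ^ (d - κ - 2) := Nat.pow_le_pow_right (by norm_num) (by omega))
          (by omega)
          (by
            rw [show 4 * 2 ^ κ * 2 ^ (d - κ - 2) = 2 ^ (2 + κ + (d - κ - 2)) by
              rw [pow_add, pow_add]; norm_num]
            congr 1; omega)
          (by
            intro a ha
            obtain ⟨_, _, h3, h4, h5⟩ := hEm a ha
            refine ⟨h4, h5, ?_⟩
            have : 4 * 2 ^ (d - κ - 2) = 2 ^ (d - κ) := by
              rw [show 4 * 2 ^ (d - κ - 2) = 2 ^ (2 + (d - κ - 2)) by rw [pow_add]; norm_num]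
              congr 1; omega
            omega)
          (by
            rw [← pow_succ']
            exact Nat.pow_le_pow_right (by norm_num) (by omega))
          {1}
          (by
            intro a ha
            obtain ⟨h1, _, h3, h4, h5⟩ := hEm a ha
            have h6 := hred a (hFm a h1).1
            have hp : a.Prime := by
              by_contra hnp
              have h7 := Nat.minFac_sq_le_self (by omega : 0 < a) hnp
              have h8 : (2 ^ (d - κ)) ^ 2 < 2 ^ (d + 1) := by
                have h9 : 2 ^ (d - κ) < a.minFac := by omega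
                have h10 : (2 ^ (d - κ)) ^ 2 < a.minFac ^ 2 := Nat.pow_lt_pow_left h9 (by norm_num)
                omega
              rw [← pow_mul] at h8
              have := (Nat.pow_lt_pow_iff_right (by norm_num : 1 < 2)).1 h8
              omega
            rw [mem_singleton, hp.minFac_eq]
            exact Nat.div_self hp.pos)
          (by
            intro u hu
            rw [mem_singleton] at hu
            rw [hu]
            refine ⟨by norm_num, ?_, ?_⟩
            · have : 0 < 2 ^ κ := by positivity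
              omega
            · rw [Nat.clog_one_right]; omega)
          hno
        rw [Finset.sum_singleton, Nat.clog_one_right] at hcb
        have hdr : (1 : ℝ) ≤ d := by
          have : 1 ≤ d := by omega
          exact_mod_cast this
        have hif : (if 1 ≤ d then (1 : ℝ) / (d : ℝ) else 0) = 1 / d := if_pos (by omega)
        rw [hif]
        have hcard : ∑ a ∈ E, f a ≤ E.card := by
          calc ∑ a ∈ E, f a ≤ ∑ a ∈ E, (1 : ℝ) :=
                Finset.sum_le_sum (fun a ha => hf1 a (hEm a ha).1)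
            _ = E.card := by simp
        refine hcard.trans (hcb.trans ?_)
        push_cast
        simp only [Nat.sub_zero, one_mul]
        have h10 : (0 : ℝ) ≤ 1 / d := by positivity
        have h11 : (2 * J + 5 : ℝ) ≤ 7 * J := by linarith
        have h12 : (2 : ℝ) ^ κ * (2 * J + 5) ≤ 8192 * J * (7 * J) :=
          mul_le_mul hκr h11 (by positivity) (by positivity)
        have h13 : (12 : ℝ) * 2 ^ κ * (2 * J + 5) * (1 / d) ≤ 688128 * J ^ 2 * (1 / d) := by
          apply mul_le_mul_of_nonneg_right _ h10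
          nlinarith
        have h14 : (8 : ℝ) * 2 ^ κ ≤ 2 ^ 16 * J := by linarith
        linarith
      · rw [Finset.not_nonempty_iff_eq_empty] at hne
        rw [hne, Finset.sum_empty]
        exact hrhs
    refine (Finset.sum_le_sum hfib).trans ?_
    rw [Finset.sum_add_distrib, Finset.sum_const, card_range, nsmul_eq_mul, ← Finset.mul_sum]
    have h1 : ∑ d ∈ range J, (if 1 ≤ d then (1 : ℝ) / (d : ℝ) else 0) ≤ 1 + Real.log J := by
      rw [← Finset.sum_filter]
      have : (range J).filter (fun d => 1 ≤ d) = Ico 1 J := by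
        ext d
        rw [mem_filter, mem_range, mem_Ico]
        tauto
      rw [this]
      exact harm_le J
    have h2 : (688128 : ℝ) * J ^ 2 * ∑ d ∈ range J, (if 1 ≤ d then (1 : ℝ) / (d : ℝ) else 0) ≤
        688128 * J ^ 2 * (1 + Real.log J) := mul_le_mul_of_nonneg_left h1 (by positivity)
    have h3 : (J : ℝ) * (2 ^ 16 * J) ≤ 2 ^ 16 * J ^ 2 * (1 + Real.log J) := by
      have : (0 : ℝ) ≤ 2 ^ 16 * J ^ 2 * Real.log J := by positivity
      nlinarith
    have h4 : (0 : ℝ) ≤ (J : ℝ) ^ 2 * (1 + Real.log J) := by positivity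
    nlinarith
  -- part 4
  have p4 : ∑ a ∈ F.filter c4, f a ≤ 2 ^ 11 * (J : ℝ) ^ 2 * (1 + Real.log J) := by
    set φ : ℕ → ℕ × ℕ := fun a => (Nat.log 2 a, Nat.log 2 (A.count a)) with hφ
    have hmap : ∀ a ∈ F.filter c4, φ a ∈ range J ×ˢ range J := by
      intro a ha
      have h0 := (mem_filter.1 ha).1
      have h1 := hFm a h0
      have h2 := (hred a h1.1).1
      have h3 := hcnt a h0
      rw [mem_product, mem_range, mem_range]
      refine ⟨Nat.log_lt_of_lt_pow (by omega) h1.2, ?_⟩
      have h4 : 0 < A.count a := Multiset.count_pos.2 h1.1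
      have h5 : A.count a < 2 ^ J := by omega
      have h6 : Nat.log 2 (A.count a) < J := Nat.log_lt_of_lt_pow h4.ne' h5
      exact h6
    rw [← Finset.sum_fiberwise_of_maps_to hmap]
    set EE : ℕ → ℕ → Finset ℕ := fun d l => (F.filter c4).filter (fun a => φ a = (d, l)) with hEE
    have hEm : ∀ d l, ∀ a ∈ EE d l, a ∈ F ∧ 2 ^ l ≤ A.count a ∧ A.count a < 2 ^ (l + 1) ∧
        2 ^ d ≤ a ∧ a < 2 ^ (d + 1) ∧ 13 ≤ l ∧ l < d - κ ∧ 2 ^ l < a.minFac := by
      intro d l a ha
      rw [hEE] at ha
      simp only at ha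
      rw [mem_filter, mem_filter] at ha
      obtain ⟨⟨h1, h2, h3, h4⟩, h5⟩ := ha
      rw [hφ] at h5
      simp only [Prod.mk.injEq] at h5
      obtain ⟨h5, h6⟩ := h5
      have h7 := hred a (hFm a h1).1
      have h8 : A.count a ≠ 0 := by
        have := Multiset.count_pos.2 (hFm a h1).1
        omega
      have h9 : 2 ^ l ≤ A.count a := by rw [← h6]; exact Nat.pow_log_le_self 2 h8
      have h10 : A.count a < 2 ^ (l + 1) := by
        rw [← h6]; exact Nat.lt_pow_succ_log_self (by norm_num) _
      refine ⟨h1, h9, h10, ?_, ?_, ?_, ?_, by omega⟩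
      · rw [← h5]; exact Nat.pow_log_le_self 2 (by omega)
      · rw [← h5]; exact Nat.lt_pow_succ_log_self (by norm_num) a
      · rw [hc2] at h3
        simp only [not_lt] at h3
        have h11 : 2 ^ 13 < 2 ^ (l + 1) := by omega
        have := (Nat.pow_lt_pow_iff_right (by norm_num : 1 < 2)).1 h11
        omega
      · rw [h5] at h4
        have h11 : 2 ^ l < 2 ^ (d - κ) := by omega
        exact (Nat.pow_lt_pow_iff_right (by norm_num : 1 < 2)).1 h11
    set S1 : ℕ → ℕ → Finset ℕ := fun d l => (EE d l).image (fun a => a / a.minFac) with hS1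
    have hu : ∀ d l, ∀ a ∈ EE d l, 0 < a / a.minFac ∧ a / a.minFac < 2 ^ (d + 1 - l) ∧
        a / a.minFac * a.minFac = a := by
      intro d l a ha
      obtain ⟨h1, h2, h3, h4, h5, h6, h7, h8⟩ := hEm d l a ha
      have h9 : a / a.minFac * a.minFac = a := Nat.div_mul_cancel (Nat.minFac_dvd a)
      have h10 := hred a (hFm a h1).1
      refine ⟨?_, ?_, h9⟩
      · apply Nat.div_pos (Nat.minFac_le (by omega)) (by omega)
      · have h11 : a / a.minFac * 2 ^ l < 2 ^ (d + 1 - l) * 2 ^ l := by
          calc a / a.minFac * 2 ^ l ≤ a / a.minFac * a.minFac := Nat.mul_le_mul_left _ h8.le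
            _ = a := h9
            _ < 2 ^ (d + 1) := h5
            _ = 2 ^ (d + 1 - l) * 2 ^ l := by rw [← pow_add]; congr 1; omega
        exact Nat.lt_of_mul_lt_mul_right h11
    have hclog : ∀ d l, ∀ a ∈ EE d l, Nat.clog 2 (a / a.minFac) ≤ d + 1 - l := by
      intro d l a ha
      obtain ⟨h1, h2, _⟩ := hu d l a ha
      exact Nat.clog_le_of_le_pow h2.le
    have hfib : ∀ d ∈ range J, ∀ l ∈ range J, ∑ a ∈ EE d l, f a ≤
        16 + 24 * (2 * J + 5) * ∑ u ∈ S1 d l, 1 / ((u : ℝ) * ((d - Nat.clog 2 u : ℕ) : ℝ)) := by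
      intro d hd l hl
      rw [mem_range] at hd hl
      have hX0 : 0 ≤ ∑ u ∈ S1 d l, 1 / ((u : ℝ) * ((d - Nat.clog 2 u : ℕ) : ℝ)) :=
        Finset.sum_nonneg (fun u _ => by positivity)
      by_cases hne : (EE d l).Nonempty
      · obtain ⟨a0, ha0⟩ := hne
        obtain ⟨_, _, _, _, _, hl13, hlκ, _⟩ := hEm d l a0 ha0
        have hN1 : 256 * J ≤ 2 ^ (d - l) := by
          calc 256 * J ≤ 2 ^ κ := by omega
            _ ≤ 2 ^ (d - l) := Nat.pow_le_pow_right (by norm_num) (by omega)
        have hcb := class_bound J (2 ^ (d - l)) (2 ^ (l - 2)) d A (EE d l) hJ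
          (by
            calc 2048 = 2 ^ 11 := by norm_num
              _ ≤ 2 ^ (l - 2) := Nat.pow_le_pow_right (by norm_num) (by omega))
          hN1
          (by
            rw [show 4 * 2 ^ (d - l) * 2 ^ (l - 2) = 2 ^ (2 + (d - l) + (l - 2)) by
              rw [pow_add, pow_add]; norm_num]
            congr 1; omega)
          (by
            intro a ha
            obtain ⟨_, h2, _, h4, h5, _⟩ := hEm d l a ha
            refine ⟨h4, h5, ?_⟩
            have : 4 * 2 ^ (l - 2) = 2 ^ l := by
              rw [show 4 * 2 ^ (l - 2) = 2 ^ (2 + (l - 2)) by rw [pow_add]; norm_num]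
              congr 1; omega
            omega)
          (by
            rw [← pow_succ']
            exact Nat.pow_le_pow_right (by norm_num) (by omega))
          (S1 d l)
          (by
            intro a ha
            exact mem_image_of_mem _ ha)
          (by
            intro u hu'
            rw [hS1] at hu'
            simp only at hu'
            rw [mem_image] at hu'
            obtain ⟨a, ha, rfl⟩ := hu'
            obtain ⟨h1, h2, _⟩ := hu d l a ha
            have h3 := hclog d l a ha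
            refine ⟨h1, ?_, by omega⟩
            rw [← pow_succ']
            have : d + 1 - l = d - l + 1 := by omega
            rw [this] at h2
            exact h2.le)
          hno
        have hcard : ∑ a ∈ EE d l, f a ≤ (EE d l).card * (2 / (2 : ℝ) ^ (d - l)) := by
          calc ∑ a ∈ EE d l, f a ≤ ∑ a ∈ EE d l, (2 / (2 : ℝ) ^ (d - l)) := by
                refine Finset.sum_le_sum (fun a ha => ?_)
                obtain ⟨_, _, h3, h4, _⟩ := hEm d l a ha
                rw [hf]
                simp only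
                have h3' : (A.count a : ℝ) ≤ 2 ^ (l + 1) := by exact_mod_cast h3.le
                have h4' : (2 : ℝ) ^ d ≤ a := by exact_mod_cast h4
                have h5 : (1 : ℝ) / a ≤ 1 / 2 ^ d := one_div_le_one_div_of_le (by positivity) h4'
                calc (A.count a : ℝ) * (1 / a) ≤ 2 ^ (l + 1) * (1 / 2 ^ d) :=
                      mul_le_mul h3' h5 (by positivity) (by positivity)
                  _ = 2 / (2 : ℝ) ^ (d - l) := by
                      have h6 : (2 : ℝ) ^ d = 2 ^ (d - l) * 2 ^ l := by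
                        rw [← pow_add]; congr 1; omega
                      rw [h6, pow_succ]
                      field_simp
            _ = _ := by rw [Finset.sum_const, nsmul_eq_mul]
        refine hcard.trans ?_
        have hNpos : (0 : ℝ) < 2 ^ (d - l) := by positivity
        calc ((EE d l).card : ℝ) * (2 / (2 : ℝ) ^ (d - l)) ≤
            (8 * 2 ^ (d - l) + 12 * 2 ^ (d - l) * (2 * J + 5) *
              ∑ u ∈ S1 d l, 1 / ((u : ℝ) * ((d - Nat.clog 2 u : ℕ) : ℝ))) * (2 / (2 : ℝ) ^ (d - l)) := by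
              apply mul_le_mul_of_nonneg_right _ (by positivity)
              push_cast at hcb
              exact hcb
          _ = _ := by
              field_simp
              ring
      · rw [Finset.not_nonempty_iff_eq_empty] at hne
        rw [hne, Finset.sum_empty]
        positivity
    have hds := double_sum J hJ S1 (by
      intro d l hd hl u hu'
      rw [hS1] at hu'
      simp only at hu'
      rw [mem_image] at hu'
      obtain ⟨a, ha, rfl⟩ := hu'
      obtain ⟨h1, h2, h3⟩ := hu d l a ha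
      obtain ⟨_, _, _, h4, h5, h6, h7, h8⟩ := hEm d l a ha
      have h9 := hclog d l a ha
      refine ⟨h1, ?_, by omega, by omega, by omega, ?_⟩
      · calc a / a.minFac ≤ 2 ^ (d + 1 - l) := h2.le
          _ ≤ 2 ^ J := Nat.pow_le_pow_right (by norm_num) (by omega)
      · intro p hp hpu
        have h10 : a.minFac ≤ p := by
          apply Nat.minFac_le_of_dvd hp.two_le
          exact hpu.trans ⟨a.minFac, h3.symm⟩
        refine le_trans ?_ h10
        have h11 : a / a.minFac ≤ 2 ^ Nat.clog 2 (a / a.minFac) := Nat.le_pow_clog (by norm_num) _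
        have h12 : 2 ^ d = 2 ^ Nat.clog 2 (a / a.minFac) * 2 ^ (d - Nat.clog 2 (a / a.minFac)) := by
          rw [← pow_add]; congr 1; omega
        have h13 : 2 ^ Nat.clog 2 (a / a.minFac) * 2 ^ (d - Nat.clog 2 (a / a.minFac)) ≤
            2 ^ Nat.clog 2 (a / a.minFac) * a.minFac := by
          rw [← h12]
          calc 2 ^ d ≤ a := h4
            _ = a / a.minFac * a.minFac := h3.symm
            _ ≤ _ := Nat.mul_le_mul_right _ h11
        exact Nat.le_of_mul_le_mul_left h13 (by positivity))
    have hsum : ∑ p ∈ range J ×ˢ range J, ∑ a ∈ (F.filter c4).filter (fun a => φ a = p), f a =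
        ∑ d ∈ range J, ∑ l ∈ range J, ∑ a ∈ EE d l, f a := by
      rw [Finset.sum_product]
    rw [hsum]
    calc ∑ d ∈ range J, ∑ l ∈ range J, ∑ a ∈ EE d l, f a
        ≤ ∑ d ∈ range J, ∑ l ∈ range J, (16 + 24 * (2 * J + 5) *
            ∑ u ∈ S1 d l, 1 / ((u : ℝ) * ((d - Nat.clog 2 u : ℕ) : ℝ))) :=
          Finset.sum_le_sum (fun d hd => Finset.sum_le_sum (fun l hl => hfib d hd l hl))
      _ = 16 * J ^ 2 + 24 * (2 * J + 5) * ∑ d ∈ range J, ∑ l ∈ range J,
            ∑ u ∈ S1 d l, 1 / ((u : ℝ) * ((d - Nat.clog 2 u : ℕ) : ℝ)) := by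
          simp only [Finset.sum_add_distrib, Finset.sum_const, card_range, nsmul_eq_mul,
            ← Finset.mul_sum]
          ring
      _ ≤ 16 * J ^ 2 + 24 * (2 * J + 5) * (8 * J * (1 + Real.log J)) := by
          have : (0 : ℝ) ≤ 24 * (2 * J + 5) := by positivity
          have := mul_le_mul_of_nonneg_left hds this
          linarith
      _ ≤ 2 ^ 11 * (J : ℝ) ^ 2 * (1 + Real.log J) := by
          have h1 : (0 : ℝ) ≤ (J : ℝ) * (1 + Real.log J) := by positivity
          have h2 : (24 : ℝ) * (2 * J + 5) * (8 * J * (1 + Real.log J)) ≤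
              24 * (7 * J) * (8 * J * (1 + Real.log J)) := by
            apply mul_le_mul_of_nonneg_right _ (by positivity)
            linarith
          have h3 : (16 : ℝ) * J ^ 2 ≤ 16 * J ^ 2 * (1 + Real.log J) := by
            have : (0 : ℝ) ≤ 16 * (J : ℝ) ^ 2 * Real.log J := by positivity
            linarith
          have h4 : (0 : ℝ) ≤ (J : ℝ) ^ 2 * (1 + Real.log J) := by positivity
          nlinarith
  have h5 : (J : ℝ) ^ 2 ≤ (J : ℝ) ^ 2 * (1 + Real.log J) := by
    have : (0 : ℝ) ≤ (J : ℝ) ^ 2 * Real.log J := by positivity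
    linarith
  calc ∑ a ∈ F, f a ≤ _ := hsplit
    _ ≤ 2 ^ 27 * (J : ℝ) ^ 2 + 2 ^ 14 * (J : ℝ) ^ 2 + 2 ^ 20 * (J : ℝ) ^ 2 * (1 + Real.log J) +
        2 ^ 11 * (J : ℝ) ^ 2 * (1 + Real.log J) := by linarith
    _ ≤ 2 ^ 28 * (J : ℝ) ^ 2 * (1 + Real.log J) := by
        have h6 : (0 : ℝ) ≤ (J : ℝ) ^ 2 * (1 + Real.log J) := by positivity
        nlinarith

end Pool.Agent.Helper307.UF
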