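import Mathlib
import Pool.Agent.Helper307.UF.Mass

set_option autoImplicit false

namespace Pool.Agent.Helper307.UF

open Finset

lemma sg_nonneg (A : Multiset ℕ) : 0 ≤ sg A := by
  unfold sg
  apply Multiset.sum_nonneg
  intro x hx
  rw [Multiset.mem_map] at hx
  obtain ⟨n, _, rfl⟩ := hx
  positivity

lemma sg_cons (a : ℕ) (A : Multiset ℕ) : sg (a ::ₘ A) = 1 / (a : ℝ) + sg A := by
  simp [sg]

lemma sg_singleton (a : ℕ) : sg {a} = 1 / (a : ℝ) := by
  simp [sg]

/-- merging equal unit fractions -/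
lemma merge : ∀ (n : ℕ) (A : Multiset ℕ), A.card ≤ n → (∀ a ∈ A, 0 < a) →
    ∃ A' : Multiset ℕ, sg A' = sg A ∧ (∀ S' ≤ A', ∃ S ≤ A, sg S = sg S') ∧
      (1 ∈ A' ∨ ∀ a ∈ A', 2 ≤ a ∧ A'.count a < a.minFac) := by
  classical
  intro n
  induction n with
  | zero =>
    intro A hA hpos
    have h0 : A = 0 := by
      rw [← Multiset.card_eq_zero]; omega
    refine ⟨A, rfl, fun S' h => ⟨S', h, rfl⟩, Or.inr ?_⟩
    intro a ha
    rw [h0] at ha
    exact absurd ha (Multiset.notMem_zero a)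
  | succ n ih =>
    intro A hA hpos
    by_cases h1 : 1 ∈ A
    · exact ⟨A, rfl, fun S' h => ⟨S', h, rfl⟩, Or.inl h1⟩
    by_cases h2 : ∀ a ∈ A, 2 ≤ a ∧ A.count a < a.minFac
    · exact ⟨A, rfl, fun S' h => ⟨S', h, rfl⟩, Or.inr h2⟩
    push Not at h2
    obtain ⟨a, ha, h3⟩ := h2
    have ha0 := hpos a ha
    have ha1 : a ≠ 1 := fun h => h1 (h ▸ ha)
    have ha2 : 2 ≤ a := by omega
    have h4 := h3 ha2
    have hp := Nat.minFac_prime ha1
    set p := a.minFac with hpdef
    have hpd : a / p * p = a := Nat.div_mul_cancel (Nat.minFac_dvd a)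
    set d := a / p with hd
    have hle : Multiset.replicate p a ≤ A := by
      rw [← Multiset.le_count_iff_replicate_le]; exact h4
    obtain ⟨A0, hA0⟩ := Multiset.le_iff_exists_add.1 hle
    have hcard : A.card = p + A0.card := by
      rw [hA0, Multiset.card_add, Multiset.card_replicate]
    have hd0 : 0 < d := by
      rcases Nat.eq_zero_or_pos d with h | h
      · rw [h] at hpd; omega
      · exact h
    have hp2 := hp.two_le
    obtain ⟨A', hA'1, hA'2, hA'3⟩ := ih (d ::ₘ A0) (by rw [Multiset.card_cons]; omega) (by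
      intro b hb
      rw [Multiset.mem_cons] at hb
      rcases hb with rfl | hb
      · exact hd0
      · apply hpos
        rw [hA0]
        exact Multiset.mem_add.2 (Or.inr hb))
    have hsgd : (1 : ℝ) / (d : ℝ) = sg (Multiset.replicate p a) := by
      rw [sg_replicate]
      have h5 : (a : ℝ) = d * p := by exact_mod_cast hpd.symm
      have h6 : (0 : ℝ) < d := by exact_mod_cast hd0
      have h7 : (0 : ℝ) < p := by exact_mod_cast hp.pos
      rw [h5]
      field_simp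
    refine ⟨A', ?_, ?_, hA'3⟩
    · rw [hA'1, sg_cons, hA0, sg_add, hsgd]
    · intro S' hS'
      obtain ⟨S, hS, hSS⟩ := hA'2 S' hS'
      by_cases hdS : d ∈ S
      · refine ⟨Multiset.replicate p a + S.erase d, ?_, ?_⟩
        · rw [hA0]
          exact add_le_add_right (Multiset.erase_le_iff_le_cons.2 hS) _
        · rw [sg_add, ← hsgd, ← sg_cons, Multiset.cons_erase hdS, hSS]
      · refine ⟨S, ?_, hSS⟩
        rw [hA0]
        exact ((Multiset.le_cons_of_notMem hdS).1 hS).trans (Multiset.le_add_left _ _)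

lemma greedy_aux (ε : ℝ) (B : Multiset ℕ) (hB : ∀ b ∈ B, (1 : ℝ) / (b : ℝ) ≤ ε) :
    ∃ S ≤ B, sg S ≤ 1 ∧ (S = B ∨ 1 - ε < sg S) := by
  classical
  induction B using Multiset.induction_on with
  | empty => exact ⟨0, le_rfl, by rw [sg_zero]; norm_num, Or.inl rfl⟩
  | cons b B ih =>
    obtain ⟨S, hS, h1, h2⟩ := ih (fun x hx => hB x (Multiset.mem_cons_of_mem hx))
    by_cases h3 : 1 - ε < sg S
    · exact ⟨S, hS.trans (Multiset.le_cons_self B b), h1, Or.inr h3⟩
    · rcases h2 with h2 | h2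
      · refine ⟨b ::ₘ B, le_rfl, ?_, Or.inl rfl⟩
        rw [sg_cons]
        rw [h2] at h3
        have := hB b (Multiset.mem_cons_self b B)
        linarith
      · exact absurd h2 h3

lemma greedy (ε : ℝ) (hε : 0 < ε) (B : Multiset ℕ) (hB : ∀ b ∈ B, (1 : ℝ) / (b : ℝ) ≤ ε)
    (h1 : 1 ≤ sg B) : ∃ S ≤ B, 1 - ε < sg S ∧ sg S ≤ 1 := by
  obtain ⟨S, hS, h2, h3⟩ := greedy_aux ε B hB
  refine ⟨S, hS, ?_, h2⟩
  rcases h3 with h3 | h3
  · rw [h3]; linarith
  · exact h3

lemma sg_filter (A : Multiset ℕ) (p : ℕ → Prop) [DecidablePred p] :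
    sg (A.filter p) = ∑ a ∈ A.toFinset.filter p, (A.count a : ℝ) * (1 / (a : ℝ)) := by
  classical
  unfold sg
  rw [Finset.sum_multiset_map_count, Multiset.toFinset_filter]
  refine Finset.sum_congr rfl (fun a ha => ?_)
  rw [nsmul_eq_mul, Multiset.count_filter_of_pos (mem_filter.1 ha).2]

theorem half (A : Multiset ℕ) (hpos : ∀ a ∈ A, 0 < a) (h : 1 < sg A) :
    ∃ S ≤ A, 1 / 2 < sg S ∧ sg S ≤ 1 := by
  classical
  by_cases h1 : 1 ∈ A
  · refine ⟨{1}, Multiset.singleton_le.2 h1, ?_, ?_⟩ <;> rw [sg_singleton] <;> norm_num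
  · obtain ⟨S, hS, h2, h3⟩ := greedy (1 / 2) (by norm_num) A (by
      intro b hb
      have h4 := hpos b hb
      have h5 : b ≠ 1 := fun h => h1 (h ▸ hb)
      have h6 : (2 : ℝ) ≤ b := by
        have : 2 ≤ b := by omega
        exact_mod_cast this
      exact one_div_le_one_div_of_le (by norm_num) h6) h.le
    exact ⟨S, hS, by linarith, h3⟩

theorem dyadic (J : ℕ) (hJ : 1 ≤ J) (A : Multiset ℕ) (hpos : ∀ a ∈ A, 0 < a)
    (h : 2 ^ 28 * (J : ℝ) ^ 2 * (1 + Real.log J) + 1 < sg A) :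
    ∃ S ≤ A, 1 - (1 / 2 : ℝ) ^ J < sg S ∧ sg S ≤ 1 := by
  classical
  obtain ⟨A', h1, h2, h3⟩ := merge A.card A le_rfl hpos
  suffices h4 : ∃ S ≤ A', 1 - (1 / 2 : ℝ) ^ J < sg S ∧ sg S ≤ 1 by
    obtain ⟨S', hS', h5, h6⟩ := h4
    obtain ⟨S, hS, h7⟩ := h2 S' hS'
    exact ⟨S, hS, by rw [h7]; exact h5, by rw [h7]; exact h6⟩
  by_contra hno
  rcases h3 with h3 | h3
  · apply hno
    refine ⟨{1}, Multiset.singleton_le.2 h3, ?_, ?_⟩
    · rw [sg_singleton]
      have : (0 : ℝ) < (1 / 2) ^ J := by positivity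
      norm_num at this ⊢
    · rw [sg_singleton]; norm_num
  · have h4 := mass_bound J hJ A' h3 hno
    have h5 : sg (A'.filter (fun a => ¬ a < 2 ^ J)) < 1 := by
      by_contra hge
      push Not at hge
      obtain ⟨S, hS, h6, h7⟩ := greedy ((1 / 2 : ℝ) ^ J) (by positivity) _ (by
        intro b hb
        rw [Multiset.mem_filter] at hb
        have h8 : 2 ^ J ≤ b := by omega
        have h9 : (2 : ℝ) ^ J ≤ b := by exact_mod_cast h8
        rw [one_div_pow]
        exact one_div_le_one_div_of_le (by positivity) h9) hge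
      exact hno ⟨S, hS.trans (Multiset.filter_le _ _), h6, h7⟩
    have h6 : sg A' = sg (A'.filter (fun a => a < 2 ^ J)) +
        sg (A'.filter (fun a => ¬ a < 2 ^ J)) := by
      rw [← sg_add, Multiset.filter_add_not]
    rw [sg_filter A' (fun a => a < 2 ^ J)] at h6
    linarith

end Pool.Agent.Helper307.UF
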